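import Pool.Agent.Run7.h854.ZD.Stm3

/-!
# Project ZD, job BDD (for helper854, MP_9f173d_gt)
-/

set_option autoImplicit false

namespace Run7.h604.ZD

open Pool.Agent.Q169.ZD

noncomputable section

variable {B : Type} {M : CoxeterMatrix B} {W : Type} [Group W] (cs : CoxeterSystem M W)
  {H : Type} [Group H] [MulAction H B] (Y : Mirrored H B)

/-- the boundary in `Y` -/
def bdY (i : ℕ) (z : Y.E (i + 1) →₀ ℤ) : Y.E i →₀ ℤ := z.sum fun e n => n • Y.bd i e

/-- the projection `𝒰(W, Y) → Y` -/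
def pr (i : ℕ) (x : Cell cs Y i) : Y.E i := x.1

theorem mapDomain_bdCell (i : ℕ) (x : Cell cs Y (i + 1)) :
    (bdCell cs Y i x).mapDomain (pr cs Y _) = Y.bd i x.1 := by
  rw [bdCell, ← Finsupp.mapDomain_comp]
  exact Finsupp.mapDomain_id

theorem mapDomain_bdU (i : ℕ) (z : Cell cs Y (i + 1) →₀ ℤ) :
    (bdU cs Y i z).mapDomain (pr cs Y _) = bdY Y i (z.mapDomain (pr cs Y _)) := by
  rw [bdY, Finsupp.sum_mapDomain_index (h := fun e n => n • Y.bd i e) (fun b => zero_smul _ _)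
    (fun b m n => add_smul m n _)]
  refine (map_finsuppSum (Finsupp.mapDomain.addMonoidHom (M := ℤ) (pr cs Y i)) z
    (fun x n => n • bdCell cs Y i x)).trans ?_
  refine Finsupp.sum_congr fun x _ => ?_
  rw [map_zsmul]
  congr 1
  exact mapDomain_bdCell cs Y i x

end

end Run7.h604.ZD

namespace Run7.h854.ZD

open Pool.Agent.Q169.ZD Run7.h604.ZD

/-- **JOB BDD.** -/
theorem t_BDD : S_BDD := by
  intro B M W _ cs H _ _ Y hY i e
  have h1 : bdU cs Y i (bdU cs Y (i + 1) (Finsupp.single (cell cs Y (i + 2) e 1) 1)) = 0 :=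
    (hY.exact_succ i _).2 ⟨_, rfl⟩
  have h2 := congrArg (Finsupp.mapDomain (pr cs Y _)) h1
  rw [mapDomain_bdU, mapDomain_bdU, Finsupp.mapDomain_single, Finsupp.mapDomain_zero] at h2
  have h3 : bdY Y (i + 1) (Finsupp.single (pr cs Y _ (cell cs Y (i + 2) e 1)) 1) = Y.bd (i + 1) e := by
    rw [bdY]
    refine (Finsupp.sum_single_index (h := fun e n => n • Y.bd (i + 1) e) (zero_smul _ _)).trans ?_
    exact one_smul _ _
  rw [h3] at h2
  exact h2

end Run7.h854.ZD
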