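import Pool.Agent.Q169.ZD.Stm

/-!
# Project ZD, jobs UP and PROJ (for helper854, MP_9f173d_gt)
-/

set_option autoImplicit false

open scoped InnerProductSpace

namespace Run7.h604.ZD

open Pool.Agent.H496R3.ZS (Ell permIso dl dl_apply inner_dl_left)
open Pool.Agent.Q169.ZD

noncomputable section

open scoped Classical

variable {G : Type} [Group G] (E : Ext G)

theorem len_pos_lem (T : Set G) (hT : T ⊆ E.S) (u : G) (hu : u ∈ Subgroup.closure T)
    (h : E.len u = 0) : u = 1 := by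
  by_contra h1
  obtain ⟨t, _, h2⟩ := E.par_desc T hT u hu h1
  omega

theorem decomp_unique (T : Set G) (hT : T ⊆ E.S) (u u' m m' : G)
    (hu : u ∈ Subgroup.closure T) (hu' : u' ∈ Subgroup.closure T)
    (hm : ∀ t ∈ T, E.len m < E.len (t * m)) (hm' : ∀ t ∈ T, E.len m' < E.len (t * m'))
    (h : u * m = u' * m') : u = u' := by
  have h1 : m' = u'⁻¹ * u * m := by rw [mul_assoc, h, inv_mul_cancel_left]
  have h2 : m = u⁻¹ * u' * m' := by rw [mul_assoc, ← h, inv_mul_cancel_left]
  have k1 := E.par_len T hT (u'⁻¹ * u)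
    (Subgroup.mul_mem _ (Subgroup.inv_mem _ hu') hu) m hm
  have k2 := E.par_len T hT (u⁻¹ * u')
    (Subgroup.mul_mem _ (Subgroup.inv_mem _ hu) hu') m' hm'
  rw [← h1] at k1
  rw [← h2] at k2
  have k3 : u'⁻¹ * u = 1 := len_pos_lem E T hT _
    (Subgroup.mul_mem _ (Subgroup.inv_mem _ hu') hu) (by omega)
  rw [inv_mul_eq_one] at k3
  exact k3.symm

variable {E} {I : Type} [Fintype I] (C : Cx E I)

theorem up_mem (j : I) (g : G) : C.up j g ∈ Subgroup.closure (C.T j) :=
  (Classical.choose_spec (E.par_decomp (C.T j) (C.sub j) g)).1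

theorem up_spec (j : I) (g : G) : ∃ m, (∀ t ∈ C.T j, E.len m < E.len (t * m)) ∧
    g = C.up j g * m :=
  (Classical.choose_spec (E.par_decomp (C.T j) (C.sub j) g)).2

theorem up_min (j : I) (g : G) : ∀ t ∈ C.T j,
    E.len ((C.up j g)⁻¹ * g) < E.len (t * ((C.up j g)⁻¹ * g)) := by
  obtain ⟨m, h1, h2⟩ := up_spec C j g
  have h3 : (C.up j g)⁻¹ * g = m := by
    rw [inv_mul_eq_iff_eq_mul]; exact h2
  rw [h3]
  exact h1

theorem up_mul (j : I) (g v : G) (hv : v ∈ Subgroup.closure (C.T j)) :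
    C.up j (v * g) = v * C.up j g := by
  refine decomp_unique E (C.T j) (C.sub j) _ _ _ _ (up_mem C j _)
    (Subgroup.mul_mem _ hv (up_mem C j g)) (up_min C j (v * g)) (up_min C j g) ?_
  rw [mul_inv_cancel_left, mul_assoc, mul_inv_cancel_left]

theorem one_min (T : Set G) (hT : T ⊆ E.S) (t : G) (ht : t ∈ T) : E.len 1 < E.len (t * 1) := by
  have h1 := E.len_one
  rcases E.len_smul t (hT ht) 1 with h | h <;> omega

theorem up_one (j : I) : C.up j 1 = 1 := by
  refine decomp_unique E (C.T j) (C.sub j) _ _ _ 1 (up_mem C j _) (Subgroup.one_mem _)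
    (up_min C j 1) (fun t ht => one_min (C.T j) (C.sub j) t ht) ?_
  rw [mul_inv_cancel_left, one_mul]

theorem len_up (j : I) (g : G) : E.len g = E.len (C.up j g) + E.len ((C.up j g)⁻¹ * g) := by
  have h := E.par_len (C.T j) (C.sub j) (C.up j g) (up_mem C j g) _ (up_min C j g)
  rwa [mul_inv_cancel_left] at h

theorem len_t_up (j : I) (g t : G) (ht : t ∈ C.T j) :
    E.len (t * g) = E.len (t * C.up j g) + E.len ((C.up j g)⁻¹ * g) := by
  have h := E.par_len (C.T j) (C.sub j) (t * C.up j g)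
    (Subgroup.mul_mem _ (Subgroup.subset_closure ht) (up_mem C j g)) _ (up_min C j g)
  rwa [mul_assoc, mul_inv_cancel_left] at h

theorem up_lt (j : I) (g t : G) (ht : t ∈ C.T j) :
    E.len g < E.len (t * g) ↔ E.len (C.up j g) < E.len (t * C.up j g) := by
  rw [len_up C j g, len_t_up C j g t ht]
  omega

/-- the values of an element of `M(q)` -/
theorem inM_mul (q : G → ℝ) (hq : Wt E q) (F : I × G → ℂ) (hF : InM C q F) (j : I) (m : G)
    (hm : ∀ t ∈ C.T j, E.len m < E.len (t * m)) (n : ℕ) : ∀ u ∈ Subgroup.closure (C.T j),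
    E.len u = n → F (j, u * m) = ((Real.sqrt (q u) : ℝ) : ℂ) * F (j, m) := by
  induction n with
  | zero =>
    intro u hu h0
    rw [len_pos_lem E _ (C.sub j) u hu h0, hq.one, Real.sqrt_one, one_mul, Complex.ofReal_one,
      one_mul]
  | succ n ih =>
    intro u hu hn
    have hu1 : u ≠ 1 := by
      rintro rfl
      rw [E.len_one] at hn
      omega
    obtain ⟨t, ht, hlt⟩ := E.par_desc (C.T j) (C.sub j) u hu hu1
    have htS := C.sub j ht
    have hl : E.len (t * u) + 1 = E.len u := by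
      rcases E.len_smul t htS u with h | h <;> omega
    have htu : t * (t * u) = u := by rw [← mul_assoc, E.sq t htS, one_mul]
    have hmem : t * u ∈ Subgroup.closure (C.T j) :=
      Subgroup.mul_mem _ (Subgroup.subset_closure ht) hu
    have k1 := E.par_len (C.T j) (C.sub j) u hu m hm
    have k2 := E.par_len (C.T j) (C.sub j) (t * u) hmem m hm
    have htum : t * (t * u * m) = u * m := by rw [← mul_assoc, htu]
    have h1 := hF j t ht (t * u * m) (by rw [htum]; omega)
    have h2 := hq.smul t htS (t * u) (by rw [htu]; omega)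
    rw [htum, ih (t * u) hmem (by omega)] at h1
    rw [htu] at h2
    rw [h1, h2, Real.sqrt_mul (hq.pos t).le, Complex.ofReal_mul, mul_assoc]

theorem inM_iff (q : G → ℝ) (hq : Wt E q) (F : I × G → ℂ) : InM C q F ↔
    ∀ j g, F (j, g) = ((Real.sqrt (q (C.up j g)) : ℝ) : ℂ) * F (j, (C.up j g)⁻¹ * g) := by
  constructor
  · intro hF j g
    have h := inM_mul C q hq F hF j _ (up_min C j g) _ (C.up j g) (up_mem C j g) rfl
    rwa [mul_inv_cancel_left] at h
  · intro h j t ht g hlt
    have htm : t ∈ Subgroup.closure (C.T j) := Subgroup.subset_closure ht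
    rw [h j g, h j (t * g), up_mul C j g t htm,
      hq.smul t (C.sub j ht) (C.up j g) ((up_lt C j g t ht).1 hlt),
      Real.sqrt_mul (hq.pos t).le, Complex.ofReal_mul, mul_assoc]
    congr 4
    rw [mul_inv_rev, mul_assoc, inv_mul_cancel_left]

/-! ### The projection -/

theorem sum_apply_ell {X J : Type} (s : Finset J) (f : J → (Ell X →L[ℂ] Ell X)) (F : Ell X) (p : X) :
    ((∑ a ∈ s, f a) F : X → ℂ) p = ∑ a ∈ s, (f a F : X → ℂ) p := by
  rw [← inner_dl, ContinuousLinearMap.sum_apply, inner_sum]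
  exact Finset.sum_congr rfl fun a _ => inner_dl p _

theorem smul_apply_ell {X : Type} (c : ℂ) (f : Ell X →L[ℂ] Ell X) (F : Ell X) (p : X) :
    ((c • f) F : X → ℂ) p = c * (f F : X → ℂ) p := rfl

/-- the coefficient of the projection -/
def co (q : G → ℝ) (j : I) (u v : G) : ℝ :=
  Real.sqrt (q u) * Real.sqrt (q v) / C.wt q j

theorem P_apply (q : G → ℝ) (F : Ell (I × G)) (j : I) (g : G) :
    (C.P q F : I × G → ℂ) (j, g) = ∑ v ∈ C.U j, ((co C q j (C.up j g) v : ℝ) : ℂ) *
      F (j, v * (C.up j g)⁻¹ * g) := by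
  rw [Cx.P, sum_apply_ell, Finset.sum_eq_single j]
  · rw [sum_apply_ell, Finset.sum_eq_single (C.up j g)]
    · rw [sum_apply_ell]
      refine Finset.sum_congr rfl fun v _ => ?_
      rw [smul_apply_ell, ContinuousLinearMap.comp_apply, msk_apply, if_pos ⟨rfl, rfl⟩, pm_apply,
        lm_apply, co]
    · intro u _ hu
      rw [sum_apply_ell]
      refine Finset.sum_eq_zero fun v _ => ?_
      rw [smul_apply_ell, ContinuousLinearMap.comp_apply, msk_apply, if_neg, mul_zero]
      rintro ⟨_, h⟩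
      exact hu h.symm
    · intro h
      exact absurd ((C.mem_U j _).2 (up_mem C j g)) h
  · intro i _ hi
    rw [sum_apply_ell]
    refine Finset.sum_eq_zero fun u _ => ?_
    rw [sum_apply_ell]
    refine Finset.sum_eq_zero fun v _ => ?_
    rw [smul_apply_ell, ContinuousLinearMap.comp_apply, msk_apply, if_neg, mul_zero]
    rintro ⟨h, _⟩
    exact hi h.symm
  · intro h
    exact absurd (Finset.mem_univ j) h

theorem wt_pos (q : G → ℝ) (hq : Wt E q) (j : I) : 0 < C.wt q j :=
  Finset.sum_pos (fun u _ => hq.pos u) ⟨1, (C.mem_U j 1).2 (Subgroup.one_mem _)⟩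

theorem P_inM (q : G → ℝ) (hq : Wt E q) (F : Ell (I × G)) : InM C q (C.P q F) := by
  rw [inM_iff C q hq]
  intro j g
  have h1 : C.up j ((C.up j g)⁻¹ * g) = 1 := by
    rw [up_mul C j g _ (Subgroup.inv_mem _ (up_mem C j g)), inv_mul_cancel]
  rw [P_apply, P_apply, Finset.mul_sum, h1]
  refine Finset.sum_congr rfl fun v _ => ?_
  rw [inv_one, mul_one, ← mul_assoc, ← mul_assoc, ← Complex.ofReal_mul]
  congr 2
  rw [co, co, hq.one, Real.sqrt_one]
  ring

theorem P_eq (q : G → ℝ) (hq : Wt E q) (F : Ell (I × G)) (hF : InM C q F) : C.P q F = F := by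
  refine ell_ext fun p => ?_
  obtain ⟨j, g⟩ := p
  have h1 := (inM_iff C q hq F).1 hF
  rw [P_apply, h1 j g]
  have h2 : ∀ v ∈ C.U j, ((co C q j (C.up j g) v : ℝ) : ℂ) * F (j, v * (C.up j g)⁻¹ * g) =
      ((q v / C.wt q j : ℝ) : ℂ) * (((Real.sqrt (q (C.up j g)) : ℝ) : ℂ) *
        F (j, (C.up j g)⁻¹ * g)) := by
    intro v hv
    have hv' := (C.mem_U j v).1 hv
    have h3 : C.up j (v * (C.up j g)⁻¹ * g) = v := by
      rw [up_mul C j g _ (Subgroup.mul_mem _ hv' (Subgroup.inv_mem _ (up_mem C j g))), mul_assoc,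
        inv_mul_cancel, mul_one]
    have h6 : F (j, v * (C.up j g)⁻¹ * g) = ((Real.sqrt (q v) : ℝ) : ℂ) *
        F (j, (C.up j g)⁻¹ * g) := by
      have h7 := h1 j (v * (C.up j g)⁻¹ * g)
      rw [h3, mul_assoc v, inv_mul_cancel_left] at h7
      rw [mul_assoc v]
      exact h7
    have h4 := Real.mul_self_sqrt (hq.pos v).le
    have h8 : co C q j (C.up j g) v * Real.sqrt (q v) =
        q v / C.wt q j * Real.sqrt (q (C.up j g)) := by
      rw [co, div_mul_eq_mul_div, div_mul_eq_mul_div, mul_assoc, h4, mul_comm]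
    have h9 : ((co C q j (C.up j g) v : ℝ) : ℂ) * ((Real.sqrt (q v) : ℝ) : ℂ) =
        ((q v / C.wt q j : ℝ) : ℂ) * ((Real.sqrt (q (C.up j g)) : ℝ) : ℂ) := by
      rw [← Complex.ofReal_mul, h8, Complex.ofReal_mul]
    rw [h6, ← mul_assoc, h9, mul_assoc]
  rw [Finset.sum_congr rfl h2, ← Finset.sum_mul, ← Complex.ofReal_sum, ← Finset.sum_div]
  have h5 : (∑ v ∈ C.U j, q v) / C.wt q j = 1 := div_self (wt_pos C q hq j).ne'
  rw [h5, Complex.ofReal_one, one_mul]

theorem P_one (q : G → ℝ) (hq : Wt E q) (j : I) :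
    (C.P q (dl (j, 1)) : I × G → ℂ) (j, 1) = ((1 / C.wt q j : ℝ) : ℂ) := by
  rw [P_apply, up_one, Finset.sum_eq_single 1]
  · rw [dl_apply, if_pos (by simp), mul_one, co, hq.one, Real.sqrt_one, one_mul]
  · intro v _ hv
    rw [dl_apply, if_neg, mul_zero]
    intro h
    apply hv
    have := congrArg Prod.snd h
    simpa using this
  · intro h
    exact absurd ((C.mem_U j 1).2 (Subgroup.one_mem _)) h

theorem adjoint_real_smul' {X : Type} (c : ℝ) (T : Ell X →L[ℂ] Ell X) :
    ContinuousLinearMap.adjoint ((c : ℂ) • T) = (c : ℂ) • ContinuousLinearMap.adjoint T := by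
  rw [map_smulₛₗ]
  simp

theorem P_adj (q : G → ℝ) : ContinuousLinearMap.adjoint (C.P q) = C.P q := by
  rw [Cx.P, map_sum]
  refine Finset.sum_congr rfl fun j _ => ?_
  rw [map_sum]
  simp only [map_sum]
  rw [Finset.sum_comm]
  refine Finset.sum_congr rfl fun v hv => Finset.sum_congr rfl fun u hu => ?_
  rw [adjoint_real_smul', ContinuousLinearMap.adjoint_comp, adjoint_msk, adjoint_pm,
    mul_comm (Real.sqrt (q u))]
  congr 1
  refine ContinuousLinearMap.ext fun F => ell_ext fun p => ?_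
  obtain ⟨i, g⟩ := p
  have hinv : (lm I (v * u⁻¹))⁻¹ (i, g) = (i, u * v⁻¹ * g) := by
    rw [Equiv.Perm.inv_eq_iff_eq, lm_apply]
    simp [mul_assoc]
  rw [ContinuousLinearMap.comp_apply, ContinuousLinearMap.comp_apply, pm_apply, msk_apply,
    msk_apply, pm_apply, lm_apply, hinv]
  have hu' := (C.mem_U j u).1 hu
  have hv' := (C.mem_U j v).1 hv
  have hiff : ((i, u * v⁻¹ * g) ∈ {p : I × G | p.1 = j ∧ C.up j p.2 = u}) ↔
      ((i, g) ∈ {p : I × G | p.1 = j ∧ C.up j p.2 = v}) := by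
    change (i = j ∧ C.up j (u * v⁻¹ * g) = u) ↔ (i = j ∧ C.up j g = v)
    rw [up_mul C j g _ (Subgroup.mul_mem _ hu' (Subgroup.inv_mem _ hv')), mul_assoc,
      mul_eq_left, inv_mul_eq_one]
    exact and_congr_right fun _ => ⟨fun h => h.symm, fun h => h.symm⟩
  simp only [hiff]

theorem FS_msk_pm {X : Type} (A : Set X) (σ : Equiv.Perm X) : FS (msk A ∘L pm σ) := by
  intro F hF
  refine (hF.preimage (f := σ) (σ.injective.injOn)).subset fun p hp => ?_
  rw [Function.mem_support, ContinuousLinearMap.comp_apply, msk_apply, pm_apply] at hp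
  rw [Set.mem_preimage, Function.mem_support]
  intro h
  apply hp
  rw [h, ite_self]

theorem FS_sum {X J : Type} (s : Finset J) (f : J → (Ell X →L[ℂ] Ell X)) (hf : ∀ a ∈ s, FS (f a)) :
    FS (∑ a ∈ s, f a) := by
  intro F hF
  refine (Set.Finite.biUnion s.finite_toSet fun a ha => hf a ha F hF).subset fun p hp => ?_
  rw [Function.mem_support, sum_apply_ell] at hp
  obtain ⟨a, ha, h⟩ := Finset.exists_ne_zero_of_sum_ne_zero hp
  exact Set.mem_biUnion (Finset.mem_coe.2 ha) h

theorem FS_smul {X : Type} (c : ℂ) (f : Ell X →L[ℂ] Ell X) (hf : FS f) : FS (c • f) := by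
  intro F hF
  refine (hf F hF).subset fun p hp => ?_
  rw [Function.mem_support, smul_apply_ell] at hp
  exact right_ne_zero_of_mul hp

theorem P_FS (q : G → ℝ) : FS (C.P q) := by
  rw [Cx.P]
  exact FS_sum _ _ fun j _ => FS_sum _ _ fun u _ => FS_sum _ _ fun v _ =>
    FS_smul _ _ (FS_msk_pm _ _)

theorem P_msk (q : G → ℝ) (A : Set I) :
    C.P q ∘L msk {p : I × G | p.1 ∈ A} = msk {p : I × G | p.1 ∈ A} ∘L C.P q := by
  refine ContinuousLinearMap.ext fun F => ell_ext fun p => ?_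
  obtain ⟨j, g⟩ := p
  rw [ContinuousLinearMap.comp_apply, ContinuousLinearMap.comp_apply, P_apply, msk_apply]
  by_cases hj : j ∈ A
  · rw [if_pos (show (j, g) ∈ {p : I × G | p.1 ∈ A} from hj), P_apply]
    refine Finset.sum_congr rfl fun v _ => ?_
    rw [msk_apply, if_pos (show (j, v * (C.up j g)⁻¹ * g) ∈ {p : I × G | p.1 ∈ A} from hj)]
  · rw [if_neg (show (j, g) ∉ {p : I × G | p.1 ∈ A} from hj)]
    refine Finset.sum_eq_zero fun v _ => ?_
    rw [msk_apply, if_neg (show (j, v * (C.up j g)⁻¹ * g) ∉ {p : I × G | p.1 ∈ A} from hj),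
      mul_zero]

end

end Run7.h604.ZD

namespace Run7.h854.ZD

open Pool.Agent.Q169.ZD Run7.h604.ZD

/-- **JOB UP.** -/
theorem t_UP (G : Type) [Group G] (E : Ext G) (I : Type) [Fintype I] (C : Cx E I) :
    S_UP G E I C :=
  ⟨up_mem C, up_min C, fun j g v hv => up_mul C j g v hv, up_one C,
    fun j g t ht => up_lt C j g t ht, fun q hq F => inM_iff C q hq F⟩

/-- **JOB PROJ** without hypothesis. -/
theorem t_PROJ' (G : Type) [Group G] (E : Ext G) (I : Type) [Fintype I] (C : Cx E I) :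
    S_PROJ G E I C :=
  fun q hq => ⟨P_inM C q hq, P_eq C q hq, P_adj C q, P_one C q hq, P_FS C q, P_msk C q⟩

/-- **JOB PROJ.** -/
theorem t_PROJ (G : Type) [Group G] (E : Ext G) (I : Type) [Fintype I] (C : Cx E I)
    (_ : S_UP G E I C) : S_PROJ G E I C := t_PROJ' G E I C

end Run7.h854.ZD
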