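import Pool.Agent.Run7.h604.ZDTrace
import Pool.Agent.Run7.h604.ZDUp

/-!
# Project ZD, jobs RIGHT, COMM, CONT and DPROP (for helper854, MP_9f173d_gt)
-/

set_option autoImplicit false

open scoped InnerProductSpace

namespace Run7.h604.ZD

open Pool.Agent.H496R3.ZS (Ell permIso dl dl_apply inner_dl_left)
open Pool.Agent.Q169.ZD

noncomputable section

open scoped Classical

variable {G : Type} [Group G] (E : Ext G)

theorem len_zmul {h : G} (hh : E.len h = 0) (g : G) : E.len (h * g) = E.len g := by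
  have h1 := E.len_mul h g
  have h2 := E.len_mul h⁻¹ (h * g)
  rw [inv_mul_cancel_left, E.len_inv] at h2
  omega

theorem len_mulz {h : G} (hh : E.len h = 0) (g : G) : E.len (g * h) = E.len g := by
  have h1 := E.len_mul g h
  have h2 := E.len_mul (g * h) h⁻¹
  rw [mul_inv_cancel_right, E.len_inv] at h2
  omega

theorem rS_apply {I : Type} (q : G → ℝ) (s : G) (F : Ell (I × G)) (j : I) (g : G) :
    (rS E I q s F : I × G → ℂ) (j, g) = ((Real.sqrt (q s) : ℝ) : ℂ) * F (j, g * s) +
      (if E.len (g * s) < E.len g then ((q s - 1 : ℝ) : ℂ) * F (j, g) else 0) := by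
  have h1 : (rS E I q s F : I × G → ℂ) (j, g) = ((Real.sqrt (q s) : ℝ) : ℂ) *
      (pm (rm I s) F : I × G → ℂ) (j, g) + ((q s - 1 : ℝ) : ℂ) *
      (msk {p : I × G | E.len (p.2 * s) < E.len p.2} F : I × G → ℂ) (j, g) := rfl
  rw [h1, pm_apply, msk_apply, rm_apply]
  congr 1
  by_cases h : E.len (g * s) < E.len g
  · rw [if_pos (show (j, g) ∈ {p : I × G | E.len (p.2 * s) < E.len p.2} from h), if_pos h]
  · rw [if_neg (show (j, g) ∉ {p : I × G | E.len (p.2 * s) < E.len p.2} from h), if_neg h, mul_zero]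

theorem rH_apply {I : Type} (h : G) (F : Ell (I × G)) (j : I) (g : G) :
    (rH I h F : I × G → ℂ) (j, g) = F (j, g * h) := rfl

theorem adjoint_rH {I : Type} (h : G) : ContinuousLinearMap.adjoint (rH I h) = rH I h⁻¹ := by
  rw [rH, adjoint_pm, rH]
  congr 1
  refine Equiv.ext fun p => ?_
  rw [rm_inv_apply, rm_apply]

variable {E} {I : Type} [Fintype I] (C : Cx E I)

theorem rS_inM (q : G → ℝ) (hq : Wt E q) (s : G) (hs : s ∈ E.S) (F : Ell (I × G))
    (hF : InM C q F) : InM C q (rS E I q s F) := by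
  intro j t ht g hlt
  have htS := C.sub j ht
  rw [rS_apply, rS_apply]
  have hts : E.len (t * g) = E.len g + 1 := by
    rcases E.len_smul t htS g with h | h <;> omega
  have hgs := E.len_muls s hs g
  have htgs := E.len_muls s hs (t * g)
  have h1 := E.len_smul t htS (g * s)
  rw [← mul_assoc] at h1
  by_cases ha : E.len (g * s) < E.len g
  · -- cases (iii), (iv)
    have hb : E.len (t * g * s) < E.len (t * g) := by omega
    rw [if_pos ha, if_pos hb]
    have h2 := hF j t ht (g * s) (by rw [← mul_assoc]; omega)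
    have h3 := hF j t ht g hlt
    rw [← mul_assoc] at h2
    rw [h2, h3]
    ring
  · rw [if_neg ha, add_zero]
    by_cases hb : E.len (t * g * s) < E.len (t * g)
    · -- case (ii)
      have hc : t * g = g * s := E.lift s hs t htS g hlt (by omega) hb
      rw [if_pos hb]
      have h4 : t * g * s = g := by rw [hc, mul_assoc, E.sq s hs, mul_one]
      have h5 : q t = q s := by
        have h6 := hq.smul t htS g hlt
        have h7 := hq.mul s hs g (by omega)
        rw [hc] at h6
        rw [h6] at h7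
        have h8 := (hq.pos g).ne'
        rw [mul_comm] at h7
        exact mul_left_cancel₀ h8 h7
      have h9 := hF j t ht g hlt
      rw [h4, h9, ← hc, h9, h5]
      have h10 : ((Real.sqrt (q s) : ℝ) : ℂ) * ((Real.sqrt (q s) : ℝ) : ℂ) = ((q s : ℝ) : ℂ) := by
        rw [← Complex.ofReal_mul, Real.mul_self_sqrt (hq.pos s).le]
      have h11 : ((q s - 1 : ℝ) : ℂ) = ((q s : ℝ) : ℂ) - 1 := by push_cast; ring
      rw [h11, ← h10]
      ring
    · -- case (i)
      rw [if_neg hb, add_zero]
      have h2 := hF j t ht (g * s) (by rw [← mul_assoc]; omega)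
      rw [← mul_assoc] at h2
      rw [h2]
      ring

theorem rH_inM (q : G → ℝ) (h : G) (hh : E.len h = 0) (F : Ell (I × G))
    (hF : InM C q F) : InM C q (rH I h F) := by
  intro j t ht g hlt
  rw [rH_apply, rH_apply]
  have h1 := hF j t ht (g * h) (by rw [← mul_assoc, len_mulz E hh, len_mulz E hh]; exact hlt)
  rw [← mul_assoc] at h1
  exact h1

/-! ### Commutation -/

omit [Fintype I] in
theorem Comm_sum {J : Type} (q : G → ℝ) (s : Finset J) (f : J → (Ell (I × G) →L[ℂ] Ell (I × G)))
    (hf : ∀ a ∈ s, Comm E I q (f a)) : Comm E I q (∑ a ∈ s, f a) := by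
  constructor
  · intro r hr
    refine ContinuousLinearMap.ext fun F => ?_
    rw [ContinuousLinearMap.comp_apply, ContinuousLinearMap.comp_apply,
      ContinuousLinearMap.sum_apply, ContinuousLinearMap.sum_apply, map_sum]
    refine Finset.sum_congr rfl fun a ha => ?_
    exact DFunLike.congr_fun ((hf a ha).1 r hr) F
  · intro r hr
    refine ContinuousLinearMap.ext fun F => ?_
    rw [ContinuousLinearMap.comp_apply, ContinuousLinearMap.comp_apply,
      ContinuousLinearMap.sum_apply, ContinuousLinearMap.sum_apply, map_sum]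
    refine Finset.sum_congr rfl fun a ha => ?_
    exact DFunLike.congr_fun ((hf a ha).2 r hr) F

omit [Fintype I] in
theorem Comm_smul (q : G → ℝ) (c : ℂ) (x : Ell (I × G) →L[ℂ] Ell (I × G)) (hx : Comm E I q x) :
    Comm E I q (c • x) := by
  constructor
  · intro r hr
    rw [ContinuousLinearMap.smul_comp, hx.1 r hr, ContinuousLinearMap.comp_smul]
  · intro r hr
    rw [ContinuousLinearMap.smul_comp, hx.2 r hr, ContinuousLinearMap.comp_smul]

omit [Fintype I] in
theorem Comm_adjoint (q : G → ℝ) (x : Ell (I × G) →L[ℂ] Ell (I × G)) (hx : Comm E I q x) :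
    Comm E I q (ContinuousLinearMap.adjoint x) := by
  constructor
  · intro r hr
    have h := congrArg ContinuousLinearMap.adjoint (hx.1 r hr)
    rw [ContinuousLinearMap.adjoint_comp, ContinuousLinearMap.adjoint_comp,
      adjoint_rS E q r hr] at h
    exact h.symm
  · intro r hr
    have h := congrArg ContinuousLinearMap.adjoint (hx.2 r⁻¹ (len_inv_zero E hr))
    rw [ContinuousLinearMap.adjoint_comp, ContinuousLinearMap.adjoint_comp,
      adjoint_rH, inv_inv] at h
    exact h.symm

omit [Fintype I] in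
theorem Comm_msk (q : G → ℝ) (A : Set I) : Comm E I q (msk {p : I × G | p.1 ∈ A}) := by
  constructor
  · intro r hr
    refine ContinuousLinearMap.ext fun F => ell_ext fun p => ?_
    obtain ⟨j, g⟩ := p
    rw [ContinuousLinearMap.comp_apply, ContinuousLinearMap.comp_apply, msk_apply, rS_apply,
      rS_apply, msk_apply, msk_apply]
    by_cases hj : j ∈ A
    · have a1 : (j, g) ∈ {p : I × G | p.1 ∈ A} := hj
      have a2 : (j, g * r) ∈ {p : I × G | p.1 ∈ A} := hj
      rw [if_pos a1, if_pos a1, if_pos a2]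
    · have a1 : (j, g) ∉ {p : I × G | p.1 ∈ A} := hj
      have a2 : (j, g * r) ∉ {p : I × G | p.1 ∈ A} := hj
      rw [if_neg a1, if_neg a1, if_neg a2, mul_zero, mul_zero, ite_self, add_zero]
  · intro r hr
    refine ContinuousLinearMap.ext fun F => ell_ext fun p => ?_
    obtain ⟨j, g⟩ := p
    rw [ContinuousLinearMap.comp_apply, ContinuousLinearMap.comp_apply, msk_apply, rH_apply,
      rH_apply, msk_apply]
    rfl

omit [Fintype I] in
theorem Comm_piece (q : G → ℝ) (j k : I) (h : G) (hh : E.len h = 0) :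
    Comm E I q (msk {p : I × G | p.1 = j} ∘L
      pm (Equiv.prodCongr (Equiv.swap j k) (Equiv.mulLeft h⁻¹))) := by
  have hi := len_inv_zero E hh
  have hx : ∀ (F : Ell (I × G)) (i : I) (g : G), ((msk {p : I × G | p.1 = j} ∘L
      pm (Equiv.prodCongr (Equiv.swap j k) (Equiv.mulLeft h⁻¹))) F : I × G → ℂ) (i, g) =
      if i = j then F (Equiv.swap j k i, h⁻¹ * g) else 0 := fun F i g => rfl
  constructor
  · intro r hr
    refine ContinuousLinearMap.ext fun F => ell_ext fun p => ?_
    obtain ⟨i, g⟩ := p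
    rw [ContinuousLinearMap.comp_apply _ (rS E I q r), ContinuousLinearMap.comp_apply (rS E I q r),
      hx, rS_apply, rS_apply, hx, hx]
    by_cases hij : i = j
    · rw [if_pos hij, if_pos hij, if_pos hij, mul_assoc h⁻¹ g r, len_zmul E hi, len_zmul E hi]
    · rw [if_neg hij, if_neg hij, if_neg hij]
      simp
  · intro r hr
    refine ContinuousLinearMap.ext fun F => ell_ext fun p => ?_
    obtain ⟨i, g⟩ := p
    rw [ContinuousLinearMap.comp_apply _ (rH I r), ContinuousLinearMap.comp_apply (rH I r),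
      hx, rH_apply, rH_apply, hx, mul_assoc h⁻¹ g r]

theorem Comm_Dh (q : G → ℝ) : Comm E I q C.Dh := by
  rw [Cx.Dh]
  refine Comm_sum q _ _ fun j _ => Comm_sum q _ _ fun k _ => Comm_sum q _ _ fun h hh => ?_
  exact Comm_smul q _ _ (Comm_piece q j k h (C.D_len j k h (Finsupp.mem_support_iff.1 hh)))

theorem Comm_P (q : G → ℝ) (hq : Wt E q) : Comm E I q (C.P q) := by
  have h1 : ∀ R : Ell (I × G) →L[ℂ] Ell (I × G), (∀ F : Ell (I × G), InM C q F → InM C q (R F)) →
      C.P q ∘L R ∘L C.P q = R ∘L C.P q := fun R hR =>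
    ContinuousLinearMap.ext fun F => P_eq C q hq _ (hR _ (P_inM C q hq F))
  have h2 : ∀ R : Ell (I × G) →L[ℂ] Ell (I × G),
      (∀ F : Ell (I × G), InM C q F → InM C q (R F)) →
      (∀ F : Ell (I × G), InM C q F → InM C q (ContinuousLinearMap.adjoint R F)) →
      C.P q ∘L R = R ∘L C.P q := by
    intro R hR hR'
    have h3 := congrArg ContinuousLinearMap.adjoint (h1 _ hR')
    rw [ContinuousLinearMap.adjoint_comp, ContinuousLinearMap.adjoint_comp,
      ContinuousLinearMap.adjoint_adjoint, P_adj] at h3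
    rw [← h1 R hR, ← ContinuousLinearMap.comp_assoc]
    exact h3.symm
  constructor
  · intro s hs
    refine h2 _ (fun F hF => rS_inM C q hq s hs F hF) fun F hF => ?_
    rw [adjoint_rS E q s hs]
    exact rS_inM C q hq s hs F hF
  · intro h hh
    refine h2 _ (fun F hF => rH_inM C q h hh F hF) fun F hF => ?_
    rw [adjoint_rH]
    exact rH_inM C q h⁻¹ (len_inv_zero E hh) F hF

/-! ### Continuity -/

theorem wt_pow (q₀ p : G → ℝ) (h0 : Wt E q₀) (hp : Wt E p) (t : ℝ) :
    Wt E (fun g => q₀ g * p g ^ t) where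
  pos g := mul_pos (h0.pos g) (Real.rpow_pos_of_pos (hp.pos g) t)
  one := by rw [h0.one, hp.one, Real.one_rpow, one_mul]
  zero_mul h hh g := by simp only [h0.zero_mul h hh g, hp.zero_mul h hh g]
  mul_zero h hh g := by simp only [h0.mul_zero h hh g, hp.mul_zero h hh g]
  mul s hs g hg := by
    simp only [h0.mul s hs g hg, hp.mul s hs g hg]
    rw [Real.mul_rpow (hp.pos g).le (hp.pos s).le]
    ring
  smul s hs g hg := by
    simp only [h0.smul s hs g hg, hp.smul s hs g hg]
    rw [Real.mul_rpow (hp.pos s).le (hp.pos g).le]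
    ring

theorem cont_P (q₀ p : G → ℝ) (h0 : Wt E q₀) (hp : Wt E p) :
    Continuous fun t : ℝ => C.P (fun g => q₀ g * p g ^ t) := by
  have hc : ∀ g, Continuous fun t : ℝ => q₀ g * p g ^ t := fun g =>
    continuous_const.mul (Real.continuous_const_rpow (hp.pos g).ne')
  unfold Cx.P
  refine continuous_finsetSum _ fun j _ => continuous_finsetSum _ fun u _ =>
    continuous_finsetSum _ fun v _ => ?_
  have h1 : Continuous fun t : ℝ => Real.sqrt (q₀ u * p u ^ t) * Real.sqrt (q₀ v * p v ^ t) /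
      C.wt (fun g => q₀ g * p g ^ t) j := by
    refine Continuous.div ?_ ?_ ?_
    · exact (Real.continuous_sqrt.comp (hc u)).mul (Real.continuous_sqrt.comp (hc v))
    · exact continuous_finsetSum _ fun w _ => hc w
    · intro t
      exact (wt_pos C _ (wt_pow q₀ p h0 hp t) j).ne'
  exact (Complex.continuous_ofReal.comp h1).smul continuous_const

/-! ### The operators Dh, Ds, eps -/

theorem Dh_apply (F : Ell (I × G)) (j : I) (g : G) :
    (C.Dh F : I × G → ℂ) (j, g) = ∑ k, ∑ h ∈ (C.D j k).support,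
      ((C.D j k h : ℤ) : ℂ) * F (k, h⁻¹ * g) := by
  have hx : ∀ (F : Ell (I × G)) (j k : I) (h : G) (i : I) (g : G),
      ((msk {p : I × G | p.1 = j} ∘L
      pm (Equiv.prodCongr (Equiv.swap j k) (Equiv.mulLeft h⁻¹))) F : I × G → ℂ) (i, g) =
      if i = j then F (Equiv.swap j k i, h⁻¹ * g) else 0 := fun F j k h i g => rfl
  rw [Cx.Dh, sum_apply_ell, Finset.sum_eq_single j]
  · rw [sum_apply_ell]
    refine Finset.sum_congr rfl fun k _ => ?_
    rw [sum_apply_ell]
    refine Finset.sum_congr rfl fun h _ => ?_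
    rw [smul_apply_ell, hx, if_pos rfl, Equiv.swap_apply_left]
  · intro i _ hi
    rw [sum_apply_ell]
    refine Finset.sum_eq_zero fun k _ => ?_
    rw [sum_apply_ell]
    refine Finset.sum_eq_zero fun h _ => ?_
    rw [smul_apply_ell, hx, if_neg (fun h => hi h.symm), mul_zero]
  · intro h
    exact absurd (Finset.mem_univ j) h

theorem Dh_dop (F : Ell (I × G)) (p : I × G) : (C.Dh F : I × G → ℂ) p = dop C.D F p := by
  obtain ⟨j, g⟩ := p
  rw [Dh_apply]
  rfl

theorem Dh_inM (q : G → ℝ) (hq : Wt E q) (F : Ell (I × G)) (hF : InM C q F) :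
    InM C q (C.Dh F) := by
  intro j t ht g hlt
  rw [Dh_apply, Dh_apply, Finset.mul_sum]
  refine Finset.sum_congr rfl fun k _ => ?_
  rw [Finset.mul_sum]
  refine Finset.sum_congr rfl fun h hh => ?_
  have hD := Finsupp.mem_support_iff.1 hh
  have hl := C.D_len j k h hD
  have hi := len_inv_zero E hl
  have htk := C.D_mir j k h hD t ht
  have e1 : h⁻¹ * t * h * (h⁻¹ * g) = h⁻¹ * (t * g) := by group
  have h1 := hF k _ htk (h⁻¹ * g) (by
    rw [e1, len_zmul E hi, len_zmul E hi]
    exact hlt)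
  have h2 : q (h⁻¹ * t * h) = q t := by rw [hq.mul_zero h hl, hq.zero_mul _ hi]
  rw [e1, h2] at h1
  rw [h1]
  ring

theorem Dh_Dh : C.Dh ∘L C.Dh = 0 := by
  refine ContinuousLinearMap.ext fun F => ell_ext fun p => ?_
  rw [ContinuousLinearMap.comp_apply, Dh_dop]
  have h1 : (fun p => (C.Dh F : I × G → ℂ) p) = dop C.D F := funext fun p => Dh_dop C F p
  have h2 : dop C.D (C.Dh F : I × G → ℂ) = dop C.D (dop C.D F) := congrArg (dop C.D) h1
  rw [h2, C.D_sq]
  rfl

theorem FS_comp {X : Type} (x y : Ell X →L[ℂ] Ell X) (hx : FS x) (hy : FS y) : FS (x ∘L y) :=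
  fun F hF => hx _ (hy F hF)

theorem FS_pm {X : Type} (σ : Equiv.Perm X) : FS (pm σ) := by
  intro F hF
  refine (hF.preimage (f := σ) (σ.injective.injOn)).subset fun p hp => ?_
  exact hp

theorem FS_msk {X : Type} (A : Set X) : FS (msk A) := by
  intro F hF
  refine hF.subset fun p hp => ?_
  rw [Function.mem_support, msk_apply] at hp
  rw [Function.mem_support]
  intro h
  apply hp
  rw [h, ite_self]

theorem FS_Dh : FS C.Dh := by
  rw [Cx.Dh]
  exact FS_sum _ _ fun j _ => FS_sum _ _ fun u _ => FS_sum _ _ fun v _ =>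
    FS_smul _ _ (FS_msk_pm _ _)

theorem FS_Ds : FS C.Ds := by
  rw [Cx.Ds, Cx.Dh]
  simp only [map_sum]
  refine FS_sum _ _ fun j _ => FS_sum _ _ fun u _ => FS_sum _ _ fun v _ => ?_
  rw [map_smulₛₗ, ContinuousLinearMap.adjoint_comp, adjoint_msk, adjoint_pm]
  exact FS_smul _ _ (FS_comp _ _ (FS_pm _) (FS_msk _))

/-- the sign of a cell -/
def sg (j : I) : ℂ := if Even (C.deg j) then 1 else -1

theorem eps_apply (F : Ell (I × G)) (j : I) (g : G) :
    (C.eps F : I × G → ℂ) (j, g) = sg C j * F (j, g) := by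
  have h1 : (C.eps F : I × G → ℂ) (j, g) =
      (msk {p : I × G | Even (C.deg p.1)} F : I × G → ℂ) (j, g) -
      (msk {p : I × G | ¬ Even (C.deg p.1)} F : I × G → ℂ) (j, g) := rfl
  rw [h1, msk_apply, msk_apply, sg]
  by_cases h : Even (C.deg j)
  · rw [if_pos (show (j, g) ∈ {p : I × G | Even (C.deg p.1)} from h),
      if_neg (show (j, g) ∉ {p : I × G | ¬ Even (C.deg p.1)} from fun h' => h' h), if_pos h]
    ring
  · rw [if_neg (show (j, g) ∉ {p : I × G | Even (C.deg p.1)} from h),
      if_pos (show (j, g) ∈ {p : I × G | ¬ Even (C.deg p.1)} from h), if_neg h]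
    ring

theorem FS_eps : FS C.eps := by
  intro F hF
  refine hF.subset fun p hp => ?_
  obtain ⟨j, g⟩ := p
  rw [Function.mem_support, eps_apply] at hp
  exact right_ne_zero_of_mul hp

theorem adjoint_eps : ContinuousLinearMap.adjoint C.eps = C.eps := by
  rw [Cx.eps, map_sub, adjoint_msk, adjoint_msk]

theorem eps_Dh : C.eps ∘L C.Dh = - (C.Dh ∘L C.eps) := by
  refine ContinuousLinearMap.ext fun F => ell_ext fun p => ?_
  obtain ⟨j, g⟩ := p
  have h0 : ((-(C.Dh ∘L C.eps)) F : I × G → ℂ) (j, g) = - (C.Dh (C.eps F) : I × G → ℂ) (j, g) := rfl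
  rw [h0, ContinuousLinearMap.comp_apply, eps_apply, Dh_apply, Dh_apply, Finset.mul_sum,
    ← Finset.sum_neg_distrib]
  refine Finset.sum_congr rfl fun k _ => ?_
  rw [Finset.mul_sum, ← Finset.sum_neg_distrib]
  refine Finset.sum_congr rfl fun h hh => ?_
  rw [eps_apply]
  have hd := C.D_deg j k h (Finsupp.mem_support_iff.1 hh)
  have hs : sg C j = - sg C k := by
    rw [sg, sg, hd]
    by_cases he : Even (C.deg k)
    · rw [if_neg (by rw [Nat.even_add_one]; exact fun h => h he), if_pos he]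
    · rw [if_pos (by rw [Nat.even_add_one]; exact he), if_neg he, neg_neg]
  rw [hs]
  ring

theorem eps_Ds : C.eps ∘L C.Ds = - (C.Ds ∘L C.eps) := by
  have h := congrArg ContinuousLinearMap.adjoint (eps_Dh C)
  rw [map_neg, ContinuousLinearMap.adjoint_comp, ContinuousLinearMap.adjoint_comp,
    adjoint_eps] at h
  rw [Cx.Ds, h, neg_neg]

end

end Run7.h604.ZD

namespace Run7.h854.ZD

open Pool.Agent.Q169.ZD Run7.h604.ZD

/-- **JOB RIGHT.** -/
theorem t_RIGHT (G : Type) [Group G] (E : Ext G) (I : Type) [Fintype I] (C : Cx E I) :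
    S_RIGHT G E I C :=
  fun q hq => ⟨fun s hs => adjoint_rS E q s hs, fun h => adjoint_rH h,
    fun s hs F hF => rS_inM C q hq s hs F hF, fun h hh F hF => rH_inM C q h hh F hF⟩

/-- **JOB COMM** without hypotheses. -/
theorem t_COMM' (G : Type) [Group G] (E : Ext G) (I : Type) [Fintype I] (C : Cx E I) :
    S_COMM G E I C :=
  fun q hq => ⟨Comm_P C q hq, Comm_Dh C q, Comm_adjoint q _ (Comm_Dh C q), fun A => Comm_msk q A⟩

/-- **JOB COMM.** -/
theorem t_COMM (G : Type) [Group G] (E : Ext G) (I : Type) [Fintype I] (C : Cx E I)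
    (_ : S_RIGHT G E I C) (_ : S_PROJ G E I C) : S_COMM G E I C := t_COMM' G E I C

/-- **JOB CONT.** -/
theorem t_CONT (G : Type) [Group G] (E : Ext G) (I : Type) [Fintype I] (C : Cx E I) :
    S_CONT G E I C :=
  fun q₀ p h0 hp => ⟨fun t => wt_pow q₀ p h0 hp t, cont_P C q₀ p h0 hp⟩

/-- **JOB DPROP.** -/
theorem t_DPROP (G : Type) [Group G] (E : Ext G) (I : Type) [Fintype I] (C : Cx E I) :
    S_DPROP G E I C :=
  ⟨Dh_dop C, fun q hq F hF => Dh_inM C q hq F hF, Dh_Dh C, FS_Dh C, FS_Ds C, FS_eps C, eps_Dh C,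
    eps_Ds C⟩

end Run7.h854.ZD
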