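import Pool.Agent.Run7.h854.ZD.Stm3

/-!
# Project ZD, job DIC (for helper854, MP_9f173d_gt)
-/

set_option autoImplicit false

namespace Run7.h604.ZD.Dic

open Pool.Agent.Q169.ZD
open Pool.Agent.TH38.CX (AcyclicGComplex)
open Pool.Agent.H496R3.ZS (Ell)

noncomputable section

open scoped Classical

/-! ### Pairings -/

/-- the pairing of chains and cochains -/
def pair {X : Type} (m : X →₀ ℤ) (f : X → ℂ) : ℂ := m.sum fun x n => ((n : ℤ) : ℂ) * f x

theorem pair_zero {X : Type} (f : X → ℂ) : pair (0 : X →₀ ℤ) f = 0 := Finsupp.sum_zero_index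

theorem pair_add {X : Type} (m n : X →₀ ℤ) (f : X → ℂ) : pair (m + n) f = pair m f + pair n f :=
  Finsupp.sum_add_index' (fun x => by simp) (fun x a b => by push_cast; ring)

theorem pair_single {X : Type} (x : X) (n : ℤ) (f : X → ℂ) :
    pair (Finsupp.single x n) f = (n : ℂ) * f x :=
  Finsupp.sum_single_index (by simp)

/-- the pairing as a homomorphism -/
def pairH {X : Type} (f : X → ℂ) : (X →₀ ℤ) →+ ℂ where
  toFun m := pair m f
  map_zero' := pair_zero f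
  map_add' m n := pair_add m n f

theorem pair_mapDomain {X Y : Type} (g : X → Y) (m : X →₀ ℤ) (f : Y → ℂ) :
    pair (m.mapDomain g) f = pair m fun x => f (g x) :=
  Finsupp.sum_mapDomain_index (fun x => by simp) (fun x a b => by push_cast; ring)

theorem pair_sum {X Y : Type} (m : X →₀ ℤ) (b : X → (Y →₀ ℤ)) (f : Y → ℂ) :
    pair (m.sum fun x n => n • b x) f = pair m fun x => pair (b x) f := by
  have h := map_finsuppSum (pairH f) m (fun x n => n • b x)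
  refine h.trans ?_
  refine Finsupp.sum_congr fun x _ => ?_
  rw [map_zsmul, zsmul_eq_mul]
  rfl

theorem pair_congr {X : Type} (m : X →₀ ℤ) (f g : X → ℂ) (h : ∀ x, m x ≠ 0 → f x = g x) :
    pair m f = pair m g :=
  Finsupp.sum_congr fun x hx => by rw [h x (Finsupp.mem_support_iff.1 hx)]

/-- summability of the composition with a map with fibres of bounded cardinality -/
theorem summable_comp_of_fiber {X Y : Type} (π : X → Y) (a : Y → ℝ) (ha : ∀ y, 0 ≤ a y)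
    (hs : Summable a) (N : ℕ) (hN : ∀ (y : Y) (s : Finset X), (∀ x ∈ s, π x = y) → s.card ≤ N) :
    Summable fun x => a (π x) := by
  refine summable_of_sum_le (c := N * ∑' y, a y) (fun x => ha _) fun s => ?_
  rw [Finset.sum_comp a π]
  calc ∑ b ∈ s.image π, (s.filter fun x => π x = b).card • a b
      ≤ ∑ b ∈ s.image π, (N : ℝ) * a b := by
        refine Finset.sum_le_sum fun b _ => ?_
        rw [nsmul_eq_mul]
        refine mul_le_mul_of_nonneg_right ?_ (ha b)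
        exact_mod_cast hN b _ fun x hx => (Finset.mem_filter.1 hx).2
    _ = N * ∑ b ∈ s.image π, a b := by rw [Finset.mul_sum]
    _ ≤ N * ∑' y, a y := by
        refine mul_le_mul_of_nonneg_left ?_ (Nat.cast_nonneg _)
        exact hs.sum_le_tsum _ fun b _ => ha b

/-! ### The complex `Y` with cells of all degrees -/

variable {B : Type} {M : CoxeterMatrix B} {W : Type} [Group W] (cs : CoxeterSystem M W)
  {H : Type} [Group H] [MulAction H B] (Y : Mirrored H B)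

/-- all cells -/
abbrev ZC : Type := Σ i, Y.E i

variable {Y} in
/-- the action of `H` on the cells -/
def hz (h : H) (z : ZC Y) : ZC Y := ⟨z.1, h • z.2⟩

/-- the total boundary -/
def bdT : ZC Y → (ZC Y →₀ ℤ)
  | ⟨0, _⟩ => 0
  | ⟨i + 1, e⟩ => (Y.bd i e).mapDomain (Sigma.mk i)

theorem bdT_succ (i : ℕ) (e : Y.E (i + 1)) :
    bdT Y ⟨i + 1, e⟩ = (Y.bd i e).mapDomain (Sigma.mk i) := rfl

theorem bdT_hz (h : H) (z : ZC Y) : bdT Y (hz h z) = (bdT Y z).mapDomain (hz h) := by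
  obtain ⟨i, e⟩ := z
  cases i with
  | zero => exact (Finsupp.mapDomain_zero).symm
  | succ i =>
    change (Y.bd i (h • e)).mapDomain (Sigma.mk i) = _
    rw [bdT_succ, Y.bd_smul, ← Finsupp.mapDomain_comp, ← Finsupp.mapDomain_comp]
    rfl

theorem bdT_ne_zero (z z' : ZC Y) (h : bdT Y z z' ≠ 0) :
    z.1 = z'.1 + 1 ∧ Y.mir z.1 z.2 ⊆ Y.mir z'.1 z'.2 := by
  obtain ⟨i, e⟩ := z
  cases i with
  | zero => exact absurd rfl h
  | succ i =>
    rw [bdT_succ] at h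
    have h1 : z' ∈ Set.range (Sigma.mk i : Y.E i → ZC Y) := by
      by_contra h2
      exact h (Finsupp.mapDomain_notin_range _ _ h2)
    obtain ⟨f, rfl⟩ := h1
    rw [Finsupp.mapDomain_apply sigma_mk_injective] at h
    exact ⟨rfl, Y.mir_face i e f h⟩

theorem bdT_bdT (hdd : ∀ (i : ℕ) (e : Y.E (i + 2)),
    ((Y.bd (i + 1) e).sum fun f n => n • Y.bd i f) = 0) (z : ZC Y) (f : ZC Y → ℂ) :
    pair (bdT Y z) (fun x => pair (bdT Y x) f) = 0 := by
  obtain ⟨i, e⟩ := z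
  match i, e with
  | 0, e => exact pair_zero _
  | 1, e =>
    rw [bdT_succ, pair_mapDomain]
    rw [pair_congr (Y.bd 0 e) (fun x => pair (bdT Y ⟨0, x⟩) f) (fun _ => 0)
      (fun x _ => pair_zero f)]
    simp [pair]
  | i + 2, e =>
    rw [bdT_succ, pair_mapDomain]
    have h1 : (fun x => pair (bdT Y ⟨i + 1, x⟩) f) = fun x => pair (Y.bd i x) fun y => f ⟨i, y⟩ := by
      funext x
      rw [bdT_succ, pair_mapDomain]
    rw [h1, ← pair_sum, hdd, pair_zero]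

/-- the index set: orbits of cells -/
abbrev IX : Type := Σ i : Fin (Y.len + 1), Fin (Y.c i)

variable {Y} in
/-- the representative -/
def rp (j : IX Y) : ZC Y := ⟨j.1, Y.rep j.1 j.2⟩

theorem theta_bij : Function.Bijective (fun p : IX Y × H => hz p.2 (rp p.1)) := by
  constructor
  · rintro ⟨⟨⟨i, hi⟩, a⟩, h⟩ ⟨⟨⟨i', hi'⟩, a'⟩, h'⟩ he
    have h1 : i = i' := congrArg Sigma.fst he
    subst h1
    have h2 : h • Y.rep i a = h' • Y.rep i a' := eq_of_heq (Sigma.mk.inj he).2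
    have h3 : a = a' := by
      obtain ⟨b, _, hb⟩ := Y.rep_unique i (h • Y.rep i a)
      rw [hb a (MulAction.mem_orbit _ _), hb a' (by rw [h2]; exact MulAction.mem_orbit _ _)]
    subst h3
    have h4 : (h'⁻¹ * h) • Y.rep i a = Y.rep i a := by
      rw [mul_smul, h2, inv_smul_smul]
    have h5 := Y.free i _ _ h4
    rw [inv_mul_eq_one] at h5
    subst h5
    rfl
  · rintro ⟨i, e⟩
    have hi : i < Y.len + 1 := by
      by_contra h
      exact (Y.isEmpty i (by omega)).elim e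
    obtain ⟨a, ha, _⟩ := Y.rep_unique i e
    obtain ⟨h, rfl⟩ := ha
    exact ⟨⟨⟨⟨i, hi⟩, a⟩, h⟩, rfl⟩

/-- cells are translates of representatives -/
def th : IX Y × H ≃ ZC Y := Equiv.ofBijective _ (theta_bij Y)

theorem th_apply (j : IX Y) (h : H) : th Y (j, h) = hz h (rp j) := rfl

theorem th_symm_hz (h : H) (z : ZC Y) :
    (th Y).symm (hz h z) = (((th Y).symm z).1, h * ((th Y).symm z).2) := by
  rw [Equiv.symm_apply_eq, th_apply]
  have h1 : z = hz ((th Y).symm z).2 (rp ((th Y).symm z).1) := by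
    rw [← th_apply]
    exact ((th Y).apply_symm_apply z).symm
  conv_lhs => rw [h1]
  rw [hz, hz, hz, mul_smul]

theorem th_symm_rp (j : IX Y) : (th Y).symm (rp j) = (j, 1) := by
  rw [Equiv.symm_apply_eq, th_apply, hz, one_smul]

variable (φ : H →* MulAut W)

/-- the embedding of `H` -/
def io (h : H) : W ⋊[φ] H := ⟨1, h⟩

omit [MulAction H B] in
theorem io_eq (h : H) : io φ h = SemidirectProduct.inr h := rfl

omit [MulAction H B] in
theorem io_inj : Function.Injective (io φ) := SemidirectProduct.inr_injective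

/-- the coefficients of the complex -/
def DD (j k : IX Y) : (W ⋊[φ] H) →₀ ℤ :=
  (((bdT Y (rp j)).mapDomain (th Y).symm).curry k).mapDomain (io φ)

/-- the value of `F (j, g)` transported to all cells -/
def tr (F : IX Y × (W ⋊[φ] H) → ℂ) (g : W ⋊[φ] H) (z : ZC Y) : ℂ :=
  F (((th Y).symm z).1, (io φ ((th Y).symm z).2)⁻¹ * g)

theorem tr_rp (F : IX Y × (W ⋊[φ] H) → ℂ) (g : W ⋊[φ] H) (j : IX Y) :
    tr Y φ F g (rp j) = F (j, g) := by
  rw [tr, th_symm_rp, io_eq, map_one, inv_one, one_mul]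

theorem tr_hz (F : IX Y × (W ⋊[φ] H) → ℂ) (g : W ⋊[φ] H) (h : H) (z : ZC Y) :
    tr Y φ F g (hz h z) = tr Y φ F ((io φ h)⁻¹ * g) z := by
  rw [tr, tr, th_symm_hz, io_eq, io_eq, io_eq, map_mul, mul_inv_rev, mul_assoc]

theorem dop_eq (F : IX Y × (W ⋊[φ] H) → ℂ) (j : IX Y) (g : W ⋊[φ] H) :
    dop (DD Y φ) F (j, g) = pair (bdT Y (rp j)) (tr Y φ F g) := by
  have h1 : dop (DD Y φ) F (j, g) = ∑ k, pair (DD Y φ j k) (fun h => F (k, h⁻¹ * g)) := rfl
  have h2 : ∀ k, pair (DD Y φ j k) (fun h => F (k, h⁻¹ * g)) =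
      pair (((bdT Y (rp j)).mapDomain (th Y).symm).curry k) (fun h => F (k, (io φ h)⁻¹ * g)) :=
    fun k => pair_mapDomain _ _ _
  rw [h1, Finset.sum_congr rfl fun k _ => h2 k]
  have h3 := Finsupp.sum_curry_index ((bdT Y (rp j)).mapDomain (th Y).symm)
    (fun (k : IX Y) (h : H) (n : ℤ) => ((n : ℤ) : ℂ) * F (k, (io φ h)⁻¹ * g))
  have h4 := Finsupp.sum_fintype (((bdT Y (rp j)).mapDomain (th Y).symm).curry)
    (fun (k : IX Y) (f : H →₀ ℤ) => f.sum fun h n => ((n : ℤ) : ℂ) * F (k, (io φ h)⁻¹ * g))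
    (fun k => Finsupp.sum_zero_index)
  refine (h4.symm.trans h3).trans ?_
  exact pair_mapDomain (th Y).symm (bdT Y (rp j)) (fun p => F (p.1, (io φ p.2)⁻¹ * g))

theorem tr_dop (F : IX Y × (W ⋊[φ] H) → ℂ) (g : W ⋊[φ] H) (z : ZC Y) :
    tr Y φ (dop (DD Y φ) F) g z = pair (bdT Y z) (tr Y φ F g) := by
  have h1 : z = hz ((th Y).symm z).2 (rp ((th Y).symm z).1) := by
    rw [← th_apply]
    exact ((th Y).apply_symm_apply z).symm
  rw [tr, dop_eq]
  conv_rhs => rw [h1]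
  rw [bdT_hz, pair_mapDomain]
  refine congrArg (pair _) (funext fun x => ?_)
  rw [tr_hz]

theorem DD_sq (hdd : ∀ (i : ℕ) (e : Y.E (i + 2)),
    ((Y.bd (i + 1) e).sum fun f n => n • Y.bd i f) = 0) (F : IX Y × (W ⋊[φ] H) → ℂ) :
    dop (DD Y φ) (dop (DD Y φ) F) = 0 := by
  funext p
  obtain ⟨j, g⟩ := p
  rw [dop_eq]
  have h1 : tr Y φ (dop (DD Y φ) F) g = fun z => pair (bdT Y z) (tr Y φ F g) :=
    funext fun z => tr_dop Y φ F g z
  rw [h1, bdT_bdT Y hdd]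
  rfl

theorem DD_ne_zero (j k : IX Y) (g : W ⋊[φ] H) (h : DD Y φ j k g ≠ 0) :
    ∃ h' : H, g = io φ h' ∧ bdT Y (rp j) (hz h' (rp k)) ≠ 0 := by
  have h1 : g ∈ Set.range (io φ) := by
    by_contra h2
    exact h (Finsupp.mapDomain_notin_range _ _ h2)
  obtain ⟨h', rfl⟩ := h1
  refine ⟨h', rfl, ?_⟩
  rw [DD, Finsupp.mapDomain_apply (io_inj φ), Finsupp.curry_apply] at h
  have h3 : (k, h') = (th Y).symm (hz h' (rp k)) := by
    rw [← th_apply, Equiv.symm_apply_apply]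
  rw [h3, Finsupp.mapDomain_apply (th Y).symm.injective] at h
  exact h

/-- the reflections fixing a cell -/
def TT (z : ZC Y) : Set (W ⋊[φ] H) := {s | ∃ b ∈ Y.mir z.1 z.2, s = ⟨cs.simple b, 1⟩}

theorem closure_TT (z : ZC Y) : Subgroup.closure (TT cs Y φ z) =
    (par cs (Y.mir z.1 z.2)).map (SemidirectProduct.inl : W →* W ⋊[φ] H) := by
  rw [par, MonoidHom.map_closure]
  congr 1
  ext s
  constructor
  · rintro ⟨b, hb, rfl⟩
    exact ⟨cs.simple b, ⟨b, hb, rfl⟩, rfl⟩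
  · rintro ⟨_, ⟨b, hb, rfl⟩, rfl⟩
    exact ⟨b, hb, rfl⟩

theorem TT_conj (hφ : ∀ h b, φ h (cs.simple b) = cs.simple (h • b)) (z z' : ZC Y) (h : H)
    (hz' : Y.mir z.1 z.2 ⊆ Y.mir (hz h z').1 (hz h z').2) (t : W ⋊[φ] H) (ht : t ∈ TT cs Y φ z) :
    (io φ h)⁻¹ * t * io φ h ∈ TT cs Y φ z' := by
  obtain ⟨b, hb, rfl⟩ := ht
  have h1 := hz' hb
  change b ∈ Y.mir z'.1 (h • z'.2) at h1
  rw [Y.mir_smul] at h1
  obtain ⟨b', hb', rfl⟩ := h1
  refine ⟨b', hb', ?_⟩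
  have h2 : (φ h).symm (cs.simple (h • b')) = cs.simple b' := by
    rw [MulEquiv.symm_apply_eq, hφ]
  refine SemidirectProduct.ext ?_ ?_
  · simp [io, h2]
  · simp [io]

/-- The complex. -/
def CC (hφ : ∀ h b, φ h (cs.simple b) = cs.simple (h • b))
    (hfin : ∀ i (e : Y.E i), ((par cs (Y.mir i e) : Subgroup W) : Set W).Finite)
    (hdd : ∀ (i : ℕ) (e : Y.E (i + 2)), ((Y.bd (i + 1) e).sum fun f n => n • Y.bd i f) = 0)
    (E : Ext (W ⋊[φ] H)) (hS : E.S = {s | ∃ b : B, s = ⟨cs.simple b, 1⟩})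
    (hlen : ∀ g, E.len g = cs.length g.left) : Cx E (IX Y) where
  T j := TT cs Y φ (rp j)
  sub j := by
    rw [hS]
    rintro s ⟨b, _, hb⟩
    exact ⟨b, hb⟩
  fin j := by
    rw [closure_TT]
    exact (hfin _ _).image _
  deg j := j.1
  D := DD Y φ
  D_len j k g h := by
    obtain ⟨h', rfl, _⟩ := DD_ne_zero Y φ j k g h
    rw [hlen]
    exact cs.length_one
  D_deg j k g h := by
    obtain ⟨h', rfl, h1⟩ := DD_ne_zero Y φ j k g h
    exact (bdT_ne_zero Y _ _ h1).1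
  D_mir j k g h t ht := by
    obtain ⟨h', rfl, h1⟩ := DD_ne_zero Y φ j k g h
    exact TT_conj cs Y φ hφ _ _ h' (bdT_ne_zero Y _ _ h1).2 t ht
  D_sq F := DD_sq Y φ hdd F

/-! ### The complex `U` -/

section U

variable {φ} {Y} {cs}
variable (U : AcyclicGComplex (W ⋊[φ] H)) (κ : ∀ i, Y.E i → W → U.E i)

/-- all cells of `U` -/
abbrev VC : Type := Σ i, U.E i

/-- the total boundary -/
def bdV : VC U → (VC U →₀ ℤ)
  | ⟨0, _⟩ => 0
  | ⟨i + 1, x⟩ => (U.bd i (Finsupp.single x 1)).mapDomain (Sigma.mk i)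

omit [MulAction H B] in
theorem bdV_succ (i : ℕ) (x : U.E (i + 1)) :
    bdV U ⟨i + 1, x⟩ = (U.bd i (Finsupp.single x 1)).mapDomain (Sigma.mk i) := rfl

/-- the cell `g z` -/
def kk (g : W ⋊[φ] H) (z : ZC Y) : VC U := ⟨z.1, g • κ z.1 z.2 1⟩

variable {U κ}
variable (h1 : ∀ i (x : U.E i), ∃ e w, x = κ i e w)
  (h2 : ∀ i e e' w w', κ i e w = κ i e' w' ↔ e = e' ∧ w⁻¹ * w' ∈ par cs (Y.mir i e))
  (h3 : ∀ i (g : W ⋊[φ] H) e w, g • κ i e w = κ i (g.right • e) (g.left * φ g.right w))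
  (h4 : ∀ i e w, U.bd i (Finsupp.single (κ (i + 1) e w) 1) =
        (Y.bd i e).mapDomain (fun f => κ i f w))

include h3 in
theorem smul_one_k (i : ℕ) (g : W ⋊[φ] H) (e : Y.E i) :
    g • κ i e 1 = κ i (g.right • e) g.left := by
  rw [h3, map_one, mul_one]

include h3 h4 in
theorem bdV_kk (g : W ⋊[φ] H) (z : ZC Y) :
    bdV U (kk U κ g z) = (bdT Y z).mapDomain (kk U κ g) := by
  obtain ⟨i, e⟩ := z
  cases i with
  | zero => exact (Finsupp.mapDomain_zero).symm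
  | succ i =>
    have e1 : kk U κ g ⟨i + 1, e⟩ = ⟨i + 1, g • κ (i + 1) e 1⟩ := rfl
    rw [e1, bdV_succ, smul_one_k h3, h4, Y.bd_smul, ← Finsupp.mapDomain_comp,
      ← Finsupp.mapDomain_comp, bdT_succ, ← Finsupp.mapDomain_comp]
    congr 1
    funext f
    simp only [Function.comp_apply, kk]
    rw [smul_one_k h3]

include h3 in
theorem kk_hz (g : W ⋊[φ] H) (h : H) (z : ZC Y) :
    kk U κ g (hz h z) = kk U κ (g * io φ h) z := by
  obtain ⟨i, e⟩ := z
  simp only [kk, hz]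
  rw [mul_smul, smul_one_k h3 i (io φ h)]
  rfl

include h1 h3 in
theorem exists_kk (v : VC U) : ∃ g z, v = kk U κ g z := by
  obtain ⟨i, x⟩ := v
  obtain ⟨e, w, rfl⟩ := h1 i x
  refine ⟨⟨w, 1⟩, ⟨i, e⟩, ?_⟩
  simp only [kk]
  rw [smul_one_k h3]
  change _ = (⟨i, κ i ((1 : H) • e) w⟩ : VC U)
  rw [one_smul]

include h1 h3 in
theorem exists_ch (v : VC U) : ∃ p : IX Y × (W ⋊[φ] H), v = kk U κ p.2⁻¹ (rp p.1) := by
  obtain ⟨g, z, rfl⟩ := exists_kk h1 h3 v
  refine ⟨(((th Y).symm z).1, (g * io φ ((th Y).symm z).2)⁻¹), ?_⟩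
  have e1 : z = hz ((th Y).symm z).2 (rp ((th Y).symm z).1) := by
    rw [← th_apply]
    exact ((th Y).apply_symm_apply z).symm
  rw [inv_inv, ← kk_hz h3, ← e1]

include h3 in
theorem tr_of_c (c : VC U → ℂ) (g : W ⋊[φ] H) (z : ZC Y) :
    tr Y φ (fun p => c (kk U κ p.2⁻¹ (rp p.1))) g z = c (kk U κ g⁻¹ z) := by
  have e1 : z = hz ((th Y).symm z).2 (rp ((th Y).symm z).1) := by
    rw [← th_apply]
    exact ((th Y).apply_symm_apply z).symm
  conv_rhs => rw [e1]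
  rw [tr, kk_hz h3, mul_inv_rev, inv_inv]

include h2 h3 in
theorem kk_mul_closure (g u : W ⋊[φ] H) (z : ZC Y) (hu : u ∈ Subgroup.closure (TT cs Y φ z)) :
    kk U κ (g * u) z = kk U κ g z := by
  rw [closure_TT] at hu
  obtain ⟨w, hw, rfl⟩ := hu
  obtain ⟨i, e⟩ := z
  simp only [kk]
  rw [mul_smul, smul_one_k h3 i (SemidirectProduct.inl w)]
  have e1 : κ i ((SemidirectProduct.inl w : W ⋊[φ] H).right • e)
      (SemidirectProduct.inl w : W ⋊[φ] H).left = κ i e 1 := by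
    rw [h2]
    constructor
    · rw [SemidirectProduct.right_inl, one_smul]
    · rw [SemidirectProduct.left_inl, SemidirectProduct.right_inl, one_smul, mul_one]
      exact Subgroup.inv_mem _ hw
  rw [e1]

include h2 h3 in
theorem kk_inj (g g' : W ⋊[φ] H) (j k : IX Y) (h : kk U κ g (rp j) = kk U κ g' (rp k)) :
    j = k ∧ g⁻¹ * g' ∈ Subgroup.closure (TT cs Y φ (rp j)) := by
  obtain ⟨⟨i, hi⟩, a⟩ := j
  obtain ⟨⟨i', hi'⟩, a'⟩ := k
  have e1 : i = i' := congrArg Sigma.fst h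
  subst e1
  have e2 : g • κ i (Y.rep i a) 1 = g' • κ i (Y.rep i a') 1 := eq_of_heq (Sigma.mk.inj h).2
  have e3 : κ i (Y.rep i a) 1 = κ i ((g⁻¹ * g').right • Y.rep i a') (g⁻¹ * g').left := by
    rw [← smul_one_k h3, mul_smul, ← e2, inv_smul_smul]
  rw [h2, inv_one, one_mul] at e3
  obtain ⟨e4, e5⟩ := e3
  have e6 : a = a' := by
    obtain ⟨b, _, hb⟩ := Y.rep_unique i (Y.rep i a)
    rw [hb a (MulAction.mem_orbit_self _), hb a' ⟨_, e4.symm⟩]
  subst e6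
  have e7 := Y.free i _ _ e4.symm
  refine ⟨rfl, ?_⟩
  rw [closure_TT]
  refine ⟨(g⁻¹ * g').left, e5, ?_⟩
  refine SemidirectProduct.ext ?_ ?_
  · rw [SemidirectProduct.left_inl]
  · rw [SemidirectProduct.right_inl, e7]

/-- the choice of an element over each cell of `U` -/
def ch (v : VC U) : IX Y × (W ⋊[φ] H) := Classical.choose (exists_ch h1 h3 v)

theorem ch_spec (v : VC U) : v = kk U κ (ch h1 h3 v).2⁻¹ (rp (ch h1 h3 v).1) :=
  Classical.choose_spec (exists_ch h1 h3 v)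

theorem ch_inj : Function.Injective (ch h1 h3) := by
  intro v v' h
  rw [ch_spec h1 h3 v, ch_spec h1 h3 v', h]

include h2 in
theorem F_ch (F : IX Y × (W ⋊[φ] H) → ℂ)
    (hF : ∀ j u g, u ∈ Subgroup.closure (TT cs Y φ (rp j)) → F (j, u * g) = F (j, g))
    (j : IX Y) (g : W ⋊[φ] H) : F (ch h1 h3 (kk U κ g⁻¹ (rp j))) = F (j, g) := by
  obtain ⟨e1, e2⟩ := kk_inj h2 h3 _ _ _ _ (ch_spec h1 h3 (kk U κ g⁻¹ (rp j)))
  have e3 : ch h1 h3 (kk U κ g⁻¹ (rp j)) =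
      (j, (g * (ch h1 h3 (kk U κ g⁻¹ (rp j))).2⁻¹)⁻¹ * g) := by
    refine Prod.ext e1.symm ?_
    simp
  rw [inv_inv] at e2
  rw [e3]
  exact hF j _ g (Subgroup.inv_mem _ e2)

omit [MulAction H B] in
theorem pair_bdV_succ (i : ℕ) (x : U.E (i + 1)) (c : VC U → ℂ) :
    pair (bdV U ⟨i + 1, x⟩) c = pair (U.bd i (Finsupp.single x 1)) fun f => c ⟨i, f⟩ := by
  rw [bdV_succ, pair_mapDomain]

include h1 h2 h3 h4 in
theorem exists_primitive (hL : L2Ex U.E (fun i => U.bd i)) (F : Ell (IX Y × (W ⋊[φ] H)))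
    (hF : ∀ j u g, u ∈ Subgroup.closure (TT cs Y φ (rp j)) → F (j, u * g) = F (j, g))
    (hd : dop (DD Y φ) F = 0) :
    ∃ c' : VC U → ℂ, (∀ i, Memℓp (fun x : U.E i => c' ⟨i, x⟩) 2) ∧
      ∀ j g, pair (bdV U (kk U κ g⁻¹ (rp j))) c' = F (j, g) := by
  have h0 : 0 < (2 : ENNReal).toReal := by norm_num
  set c : VC U → ℂ := fun v => F (ch h1 h3 v) with hc
  have hcF : ∀ j g, c (kk U κ g⁻¹ (rp j)) = F (j, g) := fun j g => F_ch h1 h2 h3 F hF j g
  have hFc : (fun p : IX Y × (W ⋊[φ] H) => c (kk U κ p.2⁻¹ (rp p.1))) = F :=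
    funext fun p => hcF p.1 p.2
  have hm : ∀ i, Memℓp (fun x : U.E i => c ⟨i, x⟩) 2 := by
    intro i
    rw [memℓp_gen_iff h0]
    have e1 := (memℓp_gen_iff h0).1 (lp.memℓp F)
    exact e1.comp_injective (i := fun x : U.E i => ch h1 h3 ⟨i, x⟩)
      ((ch_inj h1 h3).comp sigma_mk_injective)
  have hdel : ∀ v, pair (bdV U v) c = 0 := by
    intro v
    obtain ⟨g, z, rfl⟩ := exists_kk h1 h3 v
    rw [bdV_kk h3 h4, pair_mapDomain]
    have e1 : (fun z' => c (kk U κ g z')) = tr Y φ F g⁻¹ := by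
      funext z'
      rw [← hFc, tr_of_c h3, inv_inv]
    rw [e1, ← tr_dop, hd]
    rfl
  have hex : ∀ i, ∃ c' : U.E i → ℂ, Memℓp c' 2 ∧ ∀ e : U.E (i + 1),
      c ⟨i + 1, e⟩ = pair (U.bd i (Finsupp.single e 1)) c' := by
    intro i
    refine hL.2 i (fun x => c ⟨i + 1, x⟩) (hm (i + 1)) fun e => ?_
    rw [← hdel ⟨i + 2, e⟩, pair_bdV_succ]
    rfl
  choose c' hc'1 hc'2 using hex
  refine ⟨fun v => c' v.1 v.2, hc'1, fun j g => ?_⟩
  rw [← hcF]
  generalize kk U κ g⁻¹ (rp j) = v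
  obtain ⟨i, x⟩ := v
  cases i with
  | zero =>
    have e1 : (fun x : U.E 0 => c ⟨0, x⟩) = 0 := by
      refine hL.1 _ (hm 0) fun e => ?_
      rw [← hdel ⟨1, e⟩, pair_bdV_succ]
      rfl
    have e2 : c ⟨0, x⟩ = 0 := congrFun e1 x
    rw [e2]
    exact pair_zero _
  | succ i =>
    rw [pair_bdV_succ, hc'2]

include h2 h3 in
theorem memlp_lift (hfin : ∀ i (e : Y.E i), ((par cs (Y.mir i e) : Subgroup W) : Set W).Finite)
    (c' : VC U → ℂ) (hc' : ∀ i, Memℓp (fun x : U.E i => c' ⟨i, x⟩) 2) :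
    Memℓp (fun p : IX Y × (W ⋊[φ] H) => c' (kk U κ p.2⁻¹ (rp p.1))) 2 := by
  have h0 : 0 < (2 : ENNReal).toReal := by norm_num
  rw [memℓp_gen_iff h0, summable_prod_of_nonneg (fun p => by positivity)]
  refine ⟨fun j => ?_, (hasSum_fintype _).summable⟩
  have hf : ((Subgroup.closure (TT cs Y φ (rp j)) : Subgroup (W ⋊[φ] H)) :
      Set (W ⋊[φ] H)).Finite := by
    rw [closure_TT]
    exact (hfin _ _).image _
  have e1 := (memℓp_gen_iff h0).1 (hc' j.1)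
  refine summable_comp_of_fiber (fun g : W ⋊[φ] H => g⁻¹ • κ j.1 (Y.rep j.1 j.2) 1)
    (fun x : U.E j.1 => ‖c' ⟨j.1, x⟩‖ ^ (2 : ENNReal).toReal) (fun x => by positivity) e1
    hf.toFinset.card fun y s hs => ?_
  rcases s.eq_empty_or_nonempty with rfl | ⟨x₀, hx₀⟩
  · simp
  · refine Finset.card_le_card_of_injOn (fun x => x * x₀⁻¹) (fun x hx => ?_)
      (fun x _ y _ hxy => mul_right_cancel hxy)
    have e2 : kk U κ x⁻¹ (rp j) = kk U κ x₀⁻¹ (rp j) := by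
      have e3 : x⁻¹ • κ j.1 (Y.rep j.1 j.2) 1 = x₀⁻¹ • κ j.1 (Y.rep j.1 j.2) 1 :=
        (hs x hx).trans (hs x₀ hx₀).symm
      change (⟨j.1, x⁻¹ • κ j.1 (Y.rep j.1 j.2) 1⟩ : VC U) =
        ⟨j.1, x₀⁻¹ • κ j.1 (Y.rep j.1 j.2) 1⟩
      rw [e3]
    have e4 := (kk_inj h2 h3 _ _ _ _ e2).2
    rw [inv_inv] at e4
    exact (Set.Finite.mem_toFinset hf).2 e4

end U

end

end Run7.h604.ZD.Dic

namespace Run7.h854.ZD

open Pool.Agent.Q169.ZD Run7.h604.ZD.Dic
open Pool.Agent.H496R3.ZS (Ell)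

/-- **JOB DIC.** -/
theorem t_DIC : S_DIC := by
  intro B M W _ cs H _ _ φ hφ Y hfin hdd E hS hlen U κ h1 h2 h3 h4 hL
  refine ⟨CC cs Y φ hφ hfin hdd E hS hlen, fun _ => rfl, fun _ => rfl, ?_⟩
  intro F hF hd
  have hs1 : ((Real.sqrt 1 : ℝ) : ℂ) = 1 := by rw [Real.sqrt_one, Complex.ofReal_one]
  have hT : ∀ j, ∀ t ∈ TT cs Y φ (rp j), ∀ g, F (j, t * g) = F (j, g) := by
    intro j t ht g
    have htS : t ∈ E.S := by
      obtain ⟨b, _, rfl⟩ := ht
      rw [hS]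
      exact ⟨b, rfl⟩
    rcases E.len_smul t htS g with h | h
    · have e1 := hF j t ht g (by omega)
      rw [e1, hs1, one_mul]
    · have e2 : t * (t * g) = g := by rw [← mul_assoc, E.sq t htS, one_mul]
      have e1 := hF j t ht (t * g) (by rw [e2]; omega)
      rw [e2, hs1, one_mul] at e1
      exact e1.symm
  have hT' : ∀ j u g, u ∈ Subgroup.closure (TT cs Y φ (rp j)) → F (j, u * g) = F (j, g) := by
    intro j u g hu
    revert g
    refine Subgroup.closure_induction (p := fun u _ => ∀ g, F (j, u * g) = F (j, g))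
      (fun t ht g => hT j t ht g) (fun g => by rw [one_mul])
      (fun a b _ _ ha hb g => by rw [mul_assoc, ha, hb])
      (fun a _ ha g => by
        have := ha (a⁻¹ * g)
        rw [mul_inv_cancel_left] at this
        exact this.symm) hu
  obtain ⟨c', hc1, hc2⟩ := exists_primitive h1 h2 h3 h4 hL F hT' hd
  refine ⟨⟨fun p => c' (kk U κ p.2⁻¹ (rp p.1)), memlp_lift h2 h3 hfin c' hc1⟩, ?_, ?_⟩
  · intro j t ht g _
    change c' (kk U κ (t * g)⁻¹ (rp j)) = ((Real.sqrt 1 : ℝ) : ℂ) * c' (kk U κ g⁻¹ (rp j))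
    rw [hs1, one_mul, mul_inv_rev, kk_mul_closure h2 h3 _ _ _
      (Subgroup.inv_mem _ (Subgroup.subset_closure ht))]
  · funext p
    obtain ⟨j, g⟩ := p
    change dop (DD Y φ) (fun p => c' (kk U κ p.2⁻¹ (rp p.1))) (j, g) = F (j, g)
    rw [dop_eq, ← hc2 j g, bdV_kk h3 h4, pair_mapDomain]
    exact congrArg (pair _) (funext fun z => tr_of_c h3 c' g z)

end Run7.h854.ZD
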