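import Pool.Agent.Q169.ZD.Stm

/-!
# Project ZD, job TRACE (for helper854, MP_9f173d_gt)
-/

set_option autoImplicit false

open scoped InnerProductSpace

namespace Run7.h604.ZD

open Pool.Agent.H496R3.ZS (Ell permIso dl dl_apply inner_dl_left)
open Pool.Agent.Q169.ZD

noncomputable section

open scoped Classical

variable {G : Type} [Group G] (E : Ext G) {I : Type}

theorem len_inv_zero {h : G} (hh : E.len h = 0) : E.len h⁻¹ = 0 := by rw [E.len_inv, hh]

theorem rm_inv_apply (s : G) (p : I × G) : (rm I s)⁻¹ p = (p.1, p.2 * s⁻¹) := by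
  rw [Equiv.Perm.inv_eq_iff_eq, rm_apply]
  simp

theorem inv_of_S {s : G} (hs : s ∈ E.S) : s⁻¹ = s := inv_eq_of_mul_eq_one_left (E.sq s hs)

theorem rm_inv (s : G) (hs : s ∈ E.S) : (rm I s)⁻¹ = rm I s := by
  refine Equiv.ext fun p => ?_
  rw [rm_inv_apply, rm_apply, inv_of_S E hs]

theorem adjoint_real_smul {X : Type} (c : ℝ) (T : Ell X →L[ℂ] Ell X) :
    ContinuousLinearMap.adjoint ((c : ℂ) • T) = (c : ℂ) • ContinuousLinearMap.adjoint T := by
  rw [map_smulₛₗ]
  simp

theorem adjoint_rS (q : G → ℝ) (s : G) (hs : s ∈ E.S) :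
    ContinuousLinearMap.adjoint (rS E I q s) = rS E I q s := by
  rw [rS, map_add, adjoint_real_smul, adjoint_real_smul, adjoint_pm, adjoint_msk, rm_inv E s hs]

theorem rS_dl (q : G → ℝ) (s : G) (hs : s ∈ E.S) (j : I) (y : G) (hy : E.len y < E.len (y * s)) :
    rS E I q s (dl (j, y)) = ((Real.sqrt (q s) : ℝ) : ℂ) • dl (j, y * s) := by
  have h1 : (j, y) ∉ {p : I × G | E.len (p.2 * s) < E.len p.2} := by
    intro h
    have h' : E.len (y * s) < E.len y := h
    omega
  rw [rS, ContinuousLinearMap.add_apply, ContinuousLinearMap.smul_apply,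
    ContinuousLinearMap.smul_apply, pm_dl, msk_dl, if_neg h1, smul_zero, add_zero, rm_inv_apply,
    inv_of_S E hs]

/-- translation operators which commute with the whole algebra -/
theorem exists_rho (q : G → ℝ) (hq : Wt E q) (n : ℕ) : ∀ g : G, E.len g = n →
    ∃ ρ : Ell (I × G) →L[ℂ] Ell (I × G), (∀ x, Comm E I q x → x ∘L ρ = ρ ∘L x) ∧
      (∀ j, ρ (dl (j, 1)) = dl (j, g)) ∧
      ∀ j y, E.len (y * g⁻¹) = E.len y + E.len g →
        ContinuousLinearMap.adjoint ρ (dl (j, y)) = dl (j, y * g⁻¹) := by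
  induction n with
  | zero =>
    intro g hg
    refine ⟨rH I g⁻¹, fun x hx => hx.2 _ (len_inv_zero E hg), fun j => ?_, fun j y _ => ?_⟩
    · rw [rH, pm_dl, rm_inv_apply]
      simp
    · rw [rH, adjoint_pm, pm_dl, inv_inv, rm_apply]
  | succ n ih =>
    intro g hg
    obtain ⟨s, hs, hlt⟩ := E.desc g (by omega)
    have hlen : E.len (g * s) + 1 = E.len g := by
      rcases E.len_muls s hs g with h | h <;> omega
    obtain ⟨ρ, h1, h2, h3⟩ := ih (g * s) (by omega)
    have hss : g * s * s = g := by rw [mul_assoc, E.sq s hs, mul_one]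
    have hqs : Real.sqrt (q s) ≠ 0 := (Real.sqrt_pos.2 (hq.pos s)).ne'
    have hqs' : ((Real.sqrt (q s) : ℝ) : ℂ) ≠ 0 := by exact_mod_cast hqs
    refine ⟨(((Real.sqrt (q s))⁻¹ : ℝ) : ℂ) • (rS E I q s ∘L ρ), fun x hx => ?_, fun j => ?_,
      fun j y hy => ?_⟩
    · rw [ContinuousLinearMap.comp_smul, ContinuousLinearMap.smul_comp,
        ← ContinuousLinearMap.comp_assoc, hx.1 s hs, ContinuousLinearMap.comp_assoc, h1 x hx,
        ContinuousLinearMap.comp_assoc]
    · rw [ContinuousLinearMap.smul_apply, ContinuousLinearMap.comp_apply, h2,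
        rS_dl E q s hs j (g * s) (by rw [hss]; omega), smul_smul, hss, Complex.ofReal_inv,
        inv_mul_cancel₀ hqs', one_smul]
    · have hg1 : y * g⁻¹ = y * s * (g * s)⁻¹ := by
        rw [mul_inv_rev, inv_of_S E hs, mul_assoc, ← mul_assoc s s, E.sq s hs, one_mul]
      have hle := E.len_mul (y * s) (g * s)⁻¹
      rw [← hg1, E.len_inv, hy] at hle
      have hys : E.len (y * s) = E.len y + 1 := by
        rcases E.len_muls s hs y with h | h <;> omega
      rw [adjoint_real_smul, ContinuousLinearMap.adjoint_comp, adjoint_rS E q s hs,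
        ContinuousLinearMap.smul_apply, ContinuousLinearMap.comp_apply,
        rS_dl E q s hs j y (by omega), map_smul, h3 j (y * s) (by rw [← hg1]; omega), ← hg1,
        smul_smul, Complex.ofReal_inv, inv_mul_cancel₀ hqs', one_smul]

theorem key (q : G → ℝ) (hq : Wt E q) (y : Ell (I × G) →L[ℂ] Ell (I × G)) (hy : Comm E I q y)
    (j k : I) (g : G) :
    (y (dl (k, g)) : I × G → ℂ) (j, 1) = (y (dl (k, 1)) : I × G → ℂ) (j, g⁻¹) := by
  obtain ⟨ρ, h1, h2, h3⟩ := exists_rho E (I := I) q hq _ g rfl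
  have h4 : y (dl (k, g)) = ρ (y (dl (k, 1))) := by
    rw [← h2, ← ContinuousLinearMap.comp_apply, h1 y hy, ContinuousLinearMap.comp_apply]
  have h5 := h3 j 1 (by rw [one_mul, E.len_inv, E.len_one, zero_add])
  rw [h4, ← inner_dl, ← ContinuousLinearMap.adjoint_inner_left, h5, one_mul, inner_dl]

theorem expand {X : Type} (F : Ell X) (S : Finset X) (hS : ∀ p, F p ≠ 0 → p ∈ S) :
    F = ∑ p ∈ S, F p • dl p := by
  refine ell_ext fun r => ?_
  rw [← inner_dl r (∑ p ∈ S, F p • dl p), inner_sum]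
  simp only [inner_smul_right, inner_dl, dl_apply, mul_ite, mul_one, mul_zero]
  rw [Finset.sum_ite_eq]
  by_cases hr : r ∈ S
  · rw [if_pos hr]
  · rw [if_neg hr]
    by_contra h
    exact hr (hS r h)

theorem apply_expand {X : Type} (y : Ell X →L[ℂ] Ell X) (F : Ell X) (S : Finset X)
    (hS : ∀ p, F p ≠ 0 → p ∈ S) (r : X) :
    (y F : X → ℂ) r = ∑ p ∈ S, F p * (y (dl p) : X → ℂ) r := by
  conv_lhs => rw [expand F S hS]
  rw [← inner_dl, map_sum, inner_sum]
  refine Finset.sum_congr rfl fun p _ => ?_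
  rw [map_smul, inner_smul_right, inner_dl]

theorem tr_comp [Fintype I] (q : G → ℝ) (hq : Wt E q) (x y : Ell (I × G) →L[ℂ] Ell (I × G))
    (hy : Comm E I q y) (T : Finset G)
    (hT : ∀ j p, (x (dl (j, 1)) : I × G → ℂ) p ≠ 0 → p.2 ∈ T) :
    Tr (y ∘L x) = ∑ j : I, ∑ k : I, ∑ g ∈ T, (x (dl (j, 1)) : I × G → ℂ) (k, g) *
      (y (dl (k, 1)) : I × G → ℂ) (j, g⁻¹) := by
  rw [Tr]
  refine Finset.sum_congr rfl fun j _ => ?_
  rw [ContinuousLinearMap.comp_apply, apply_expand y (x (dl (j, 1))) (Finset.univ ×ˢ T)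
    (fun p hp => Finset.mem_product.2 ⟨Finset.mem_univ _, hT j p hp⟩), Finset.sum_product]
  refine Finset.sum_congr rfl fun k _ => Finset.sum_congr rfl fun g _ => ?_
  rw [key E q hq y hy j k g]

theorem fin_dl {X : Type} (p : X) : (Function.support (fun r => (dl p : Ell X) r)).Finite := by
  refine (Set.finite_singleton p).subset fun r hr => ?_
  rw [Function.mem_support, dl_apply] at hr
  by_contra h
  exact hr (if_neg h)

theorem exists_T [Fintype I] (x : Ell (I × G) →L[ℂ] Ell (I × G)) (hx : FS x) :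
    ∃ T : Finset G, ∀ j p, (x (dl (j, 1)) : I × G → ℂ) p ≠ 0 → p.2 ∈ T := by
  have h1 : ∀ j : I, (Function.support (fun p => x (dl (j, 1)) p)).Finite := fun j =>
    hx _ (fin_dl _)
  refine ⟨Finset.univ.biUnion fun j => (h1 j).toFinset.image Prod.snd, fun j p hp => ?_⟩
  rw [Finset.mem_biUnion]
  refine ⟨j, Finset.mem_univ _, Finset.mem_image.2 ⟨p, ?_, rfl⟩⟩
  rw [Set.Finite.mem_toFinset]
  exact hp

end

end Run7.h604.ZD

namespace Run7.h854.ZD

open Pool.Agent.H496R3.ZS (Ell dl)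
open Pool.Agent.Q169.ZD Run7.h604.ZD

open scoped Classical in
/-- **JOB TRACE.** -/
theorem t_TRACE (G : Type) [Group G] (E : Ext G) (I : Type) [Fintype I] : S_TRACE G E I := by
  intro q hq x y hx hy fx fy
  obtain ⟨T₁, h1⟩ := exists_T x fx
  obtain ⟨T₂, h2⟩ := exists_T y fy
  have hinv' : ∀ (A : Finset G) (g : G), g ∈ A ∪ A.image (fun g => g⁻¹) →
      g⁻¹ ∈ A ∪ A.image (fun g => g⁻¹) := by
    intro A g hg
    rcases Finset.mem_union.1 hg with h | h
    · exact Finset.mem_union_right _ (Finset.mem_image.2 ⟨g, h, rfl⟩)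
    · obtain ⟨a, ha, rfl⟩ := Finset.mem_image.1 h
      rw [inv_inv]
      exact Finset.mem_union_left _ ha
  have hinv := hinv' (T₁ ∪ T₂)
  set T := (T₁ ∪ T₂) ∪ (T₁ ∪ T₂).image (fun g => g⁻¹) with hT
  rw [tr_comp E q hq x y hy T (fun j p hp => Finset.mem_union_left _
      (Finset.mem_union_left _ (h1 j p hp))),
    tr_comp E q hq y x hx T (fun j p hp => Finset.mem_union_left _
      (Finset.mem_union_right _ (h2 j p hp))), Finset.sum_comm]
  refine Finset.sum_congr rfl fun k _ => Finset.sum_congr rfl fun j _ => ?_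
  refine Finset.sum_bij' (fun g _ => g⁻¹) (fun g _ => g⁻¹) (fun g hg => hinv g hg)
    (fun g hg => hinv g hg) (fun g _ => inv_inv g) (fun g _ => inv_inv g) (fun g _ => ?_)
  rw [inv_inv, mul_comm]

end Run7.h854.ZD
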