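import Pool.Agent.Run7.h854.ZD.Stm3
import Pool.Agent.Run7.h604.ZDComm

/-!
# Project ZD, jobs WTE and SUB (for helper854, MP_9f173d_gt)
-/

set_option autoImplicit false

namespace Run7.h604.ZD

open Pool.Agent.Q169.ZD
open Pool.Agent.TH38.CX (AcyclicGComplex)

theorem wt_of_weight {B : Type} {M : CoxeterMatrix B} {W : Type} [Group W]
    (cs : CoxeterSystem M W) {H : Type} [Group H] [MulAction H B] (φ : H →* MulAut W)
    (hφ : ∀ h b, φ h (cs.simple b) = cs.simple (h • b))
    (E : Ext (W ⋊[φ] H)) (hS : E.S = {s | ∃ b : B, s = ⟨cs.simple b, 1⟩})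
    (hlen : ∀ g, E.len g = cs.length g.left) (q : W → ℝ) (hq : IsWeight cs q)
    (hi : ∀ h w, q (φ h w) = q w) : Wt E (fun g => q g.left) where
  pos g := hq.pos _
  one := by
    change q (1 : W ⋊[φ] H).left = 1
    rw [SemidirectProduct.one_left]
    exact hq.one
  zero_mul h hh g := by
    rw [hlen, cs.length_eq_zero_iff] at hh
    change q (h * g).left = q g.left
    rw [SemidirectProduct.mul_left, hh, one_mul, hi]
  mul_zero h hh g := by
    rw [hlen, cs.length_eq_zero_iff] at hh
    change q (g * h).left = q g.left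
    rw [SemidirectProduct.mul_left, hh, map_one, mul_one]
  mul s hs g hg := by
    rw [hS] at hs
    obtain ⟨b, rfl⟩ := hs
    rw [hlen, hlen, SemidirectProduct.mul_left] at hg
    change cs.length g.left < cs.length (g.left * φ g.right (cs.simple b)) at hg
    rw [hφ] at hg
    change q (g * ⟨cs.simple b, 1⟩).left = q g.left * q (cs.simple b)
    rw [SemidirectProduct.mul_left]
    change q (g.left * φ g.right (cs.simple b)) = q g.left * q (cs.simple b)
    rw [hφ, hq.mul_simple _ _ hg, ← hφ, hi]
  smul s hs g hg := by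
    rw [hS] at hs
    obtain ⟨b, rfl⟩ := hs
    rw [hlen, hlen, SemidirectProduct.mul_left] at hg
    change cs.length g.left < cs.length (cs.simple b * φ 1 g.left) at hg
    rw [map_one] at hg
    change q ((⟨cs.simple b, 1⟩ : W ⋊[φ] H) * g).left = q (cs.simple b) * q g.left
    rw [SemidirectProduct.mul_left]
    change q (cs.simple b * φ 1 g.left) = q (cs.simple b) * q g.left
    rw [map_one]
    exact hq.simple_mul _ _ hg

theorem weight_pow {B : Type} {M : CoxeterMatrix B} {W : Type} [Group W]
    (cs : CoxeterSystem M W) (r : ℝ) (hr : 0 < r) : IsWeight cs (fun w => r ^ cs.length w) where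
  one := by rw [cs.length_one, pow_zero]
  pos w := pow_pos hr _
  simple_mul w b h := by
    have h1 : cs.length (cs.simple b * w) = 1 + cs.length w := by
      rcases cs.length_simple_mul w b with h2 | h2 <;> omega
    change r ^ cs.length (cs.simple b * w) = r ^ cs.length (cs.simple b) * r ^ cs.length w
    rw [h1, cs.length_simple, pow_add]
  mul_simple w b h := by
    have h1 : cs.length (w * cs.simple b) = cs.length w + 1 := by
      rcases cs.length_mul_simple w b with h2 | h2 <;> omega
    change r ^ cs.length (w * cs.simple b) = r ^ cs.length w * r ^ cs.length (cs.simple b)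
    rw [h1, cs.length_simple, pow_add]

/-! ### Subgroups of finite index -/

/-- the restriction of a complex to a group `N → G` -/
def resC {G : Type} [Group G] (U : AcyclicGComplex G) {N : Type} [Group N] (f : N →* G) :
    AcyclicGComplex N where
  E := U.E
  act i := MulAction.compHom (U.E i) f
  bd := U.bd
  bd_smul i n x := U.bd_smul i (f n) x
  len := U.len
  isEmpty := U.isEmpty
  nonempty := U.nonempty
  exact_zero := U.exact_zero
  exact_succ := U.exact_succ

/-- a set with finitely many orbits has a finite system of representatives -/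
theorem exists_rep {N X : Type} [Group N] [MulAction N X] (K : Type) [Finite K] (r : K → X)
    (h : ∀ x, ∃ k, x ∈ MulAction.orbit N (r k)) :
    ∃ (c : ℕ) (rep : Fin c → X), ∀ x, ∃! a, x ∈ MulAction.orbit N (rep a) := by
  have hfin : Finite (MulAction.orbitRel.Quotient N X) := by
    refine Finite.of_surjective (fun k => (Quotient.mk _ (r k) : MulAction.orbitRel.Quotient N X))
      fun y => ?_
    induction y using Quotient.inductionOn with
    | _ x =>
      obtain ⟨k, hk⟩ := h x
      refine ⟨k, Quotient.sound ?_⟩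
      change r k ∈ MulAction.orbit N x
      exact MulAction.mem_orbit_symm.1 hk
  obtain ⟨c, ⟨e⟩⟩ := Finite.exists_equiv_fin (MulAction.orbitRel.Quotient N X)
  refine ⟨c, fun a => (e.symm a).out, fun x => ⟨e (Quotient.mk _ x), ?_, fun b hb => ?_⟩⟩
  · have h1 : (Quotient.mk _ ((e.symm (e (Quotient.mk _ x))).out) :
        MulAction.orbitRel.Quotient N X) = Quotient.mk _ x := by
      rw [Quotient.out_eq, Equiv.symm_apply_apply]
    have h2 := Quotient.exact h1
    change _ ∈ MulAction.orbit N x at h2
    exact MulAction.mem_orbit_symm.1 h2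
  · have h1 : (Quotient.mk _ x : MulAction.orbitRel.Quotient N X) =
        Quotient.mk _ ((e.symm b).out) := Quotient.sound hb
    rw [h1, Quotient.out_eq, Equiv.apply_symm_apply]

end Run7.h604.ZD

namespace Run7.h854.ZD

open Pool.Agent.Q169.ZD Run7.h604.ZD
open Pool.Agent.TH38.CX (AcyclicGComplex)

/-- **JOB WTE.** -/
theorem t_WTE : S_WTE := by
  intro B M W _ cs H _ _ φ hφ E hS hlen
  refine ⟨fun q hq hi => wt_of_weight cs φ hφ E hS hlen q hq hi, fun r hr =>
    ⟨weight_pow cs r hr, fun h w => ?_⟩⟩
  have h0 : E.len ⟨1, h⟩ = 0 := by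
    rw [hlen]
    exact cs.length_one
  have h1 := len_zmul E h0 (⟨w, 1⟩ : W ⋊[φ] H)
  rw [hlen, hlen, SemidirectProduct.mul_left] at h1
  change cs.length (1 * φ h w) = cs.length w at h1
  rw [one_mul] at h1
  rw [h1]

/-- **JOB SUB.** -/
theorem t_SUB (hl : S_LTWO) : S_SUB := by
  intro G _ U N _ f hfi hfree c rep hrep X hX
  have hK : Finite (G ⧸ f.range) := Subgroup.finite_quotient_of_finiteIndex
  have h1 : ∀ i, ∃ (c' : ℕ) (rep' : Fin c' → (resC U f).E i),
      ∀ x, ∃! a, x ∈ MulAction.orbit N (rep' a) := by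
    intro i
    refine exists_rep (Fin (c i) × (G ⧸ f.range)) (fun k => (k.2.out)⁻¹ • rep i k.1) fun x => ?_
    obtain ⟨a, g, rfl⟩ := hrep i x
    have h2 : (QuotientGroup.mk (Quotient.out (QuotientGroup.mk g⁻¹ : G ⧸ f.range)) :
        G ⧸ f.range) = QuotientGroup.mk g⁻¹ := Quotient.out_eq _
    obtain ⟨n, hn⟩ := QuotientGroup.eq.1 h2
    refine ⟨(a, QuotientGroup.mk g⁻¹), n⁻¹, ?_⟩
    change f n⁻¹ • ((Quotient.out (QuotientGroup.mk g⁻¹ : G ⧸ f.range))⁻¹ • rep i a) = g • rep i a
    rw [map_inv, hn, ← mul_smul]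
    congr 1
    group
  choose c' rep' hrep' using h1
  exact hl N (resC U f) hfree c' rep' hrep' X hX

end Run7.h854.ZD
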